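import Pool.Agent.V11271.HP.Rig

set_option autoImplicit false

/-!
# Counting graphs with subsets that are not uniquely embedded
-/

namespace Pool.Agent.V11271.HP

open Finset

lemma card_graphs (n : ℕ) : Fintype.card (SimpleGraph (Fin n)) = 2 ^ (n.choose 2) := by
  classical
  have e : SimpleGraph (Fin n) ≃ Set {e : Sym2 (Fin n) // ¬ e.IsDiag} :=
    { toFun := fun G => {e | e.1 ∈ G.edgeSet}
      invFun := fun s => SimpleGraph.fromEdgeSet (Subtype.val '' s)
      left_inv := by
        intro G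
        ext x y
        simp only [SimpleGraph.fromEdgeSet_adj, Set.mem_image, Set.mem_ofPred_eq, Subtype.exists, exists_and_right,
          exists_eq_right]
        constructor
        · rintro ⟨⟨_, h⟩, _⟩
          exact h
        · intro h
          exact ⟨⟨by simpa using h.ne, h⟩, h.ne⟩
      right_inv := by
        intro s
        ext ⟨e, he⟩
        simp only [SimpleGraph.edgeSet_fromEdgeSet, Set.mem_ofPred_eq, Set.mem_sdiff, Set.mem_image, Subtype.exists,
          exists_and_right, exists_eq_right]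
        constructor
        · rintro ⟨⟨_, h⟩, _⟩
          exact h
        · intro h
          exact ⟨⟨he, h⟩, he⟩ }
  rw [Fintype.card_congr e, Fintype.card_set, Sym2.card_subtype_not_diag, Fintype.card_fin]

/-- the toggled pairs -/
def RX {n : ℕ} (φ : Fin n → Fin n) (X : Finset (Fin n × Fin n)) (x y : Fin n) : Prop :=
  ∃ p ∈ X, (x = φ p.1 ∧ y = φ p.2) ∨ (x = φ p.2 ∧ y = φ p.1)

lemma RX_symm {n : ℕ} (φ : Fin n → Fin n) (X : Finset (Fin n × Fin n)) (x y : Fin n) :
    RX φ X x y ↔ RX φ X y x := by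
  unfold RX
  refine exists_congr fun p => and_congr_right fun _ => ?_
  tauto

lemma p1 {a r a' r' : Prop} (h1 : ¬ r) (h2 : ¬ r') (h : ¬ (a ↔ r) ↔ ¬ (a' ↔ r')) : a ↔ a' := by tauto

lemma p2 {a r a' r' : Prop} (h1 : a ↔ a') (h : ¬ (a ↔ r) ↔ ¬ (a' ↔ r')) : r ↔ r' := by tauto

lemma p3 {a r a' : Prop} (h : ¬ (a ↔ r) ↔ ¬ (a' ↔ r)) : a ↔ a' := by tauto

/-- toggling the adjacency of the pairs `φ a, φ b` -/
def toggle {n : ℕ} (φ : Fin n → Fin n) (G : SimpleGraph (Fin n)) (X : Finset (Fin n × Fin n)) : SimpleGraph (Fin n) where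
  Adj x y := x ≠ y ∧ ¬ (G.Adj x y ↔ RX φ X x y)
  symm := ⟨by
    rintro x y ⟨h1, h2⟩
    refine ⟨h1.symm, ?_⟩
    rw [G.adj_comm y x, RX_symm φ X y x]
    exact h2⟩
  loopless := ⟨fun x h => h.1 rfl⟩

open Classical in
/-- the number of graphs with a prescribed partial automorphism -/
theorem constraint {n : ℕ} (S A : Finset (Fin n)) (φ : Fin n → Fin n) (hφ : Set.InjOn φ S) (hA : A ⊆ S)
    (hAφ : ∀ a ∈ A, φ a ∉ A) :
    ((univ : Finset (SimpleGraph (Fin n))).filter fun G => Emb G G S φ).card *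
      2 ^ (A.card * ((S \ A).filter fun s => φ s ∉ A).card) ≤ Fintype.card (SimpleGraph (Fin n)) := by
  obtain ⟨B, hB⟩ : ∃ B, B = (S \ A).filter fun s => φ s ∉ A := ⟨_, rfl⟩
  rw [← hB]
  have hBS : ∀ b ∈ B, b ∈ S ∧ b ∉ A ∧ φ b ∉ A := by
    intro b hb
    rw [hB, mem_filter, mem_sdiff] at hb
    tauto
  rw [← card_product, ← card_powerset, ← card_product]
  refine card_le_card_of_injOn (fun p => toggle φ p.1 p.2) (fun _ _ => mem_univ _) ?_
  rintro ⟨G, X⟩ hGX ⟨G', X'⟩ hGX' h
  rw [mem_coe, mem_product, mem_filter, mem_powerset] at hGX hGX'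
  obtain ⟨⟨-, hG⟩, hX⟩ := hGX
  obtain ⟨⟨-, hG'⟩, hX'⟩ := hGX'
  simp only at hG hX hG' hX' h
  have hadj : ∀ x y, x ≠ y → (¬ (G.Adj x y ↔ RX φ X x y) ↔ ¬ (G'.Adj x y ↔ RX φ X' x y)) := by
    intro x y hxy
    have h1 : (toggle φ G X).Adj x y ↔ (toggle φ G' X').Adj x y := by rw [h]
    have h2 : (x ≠ y ∧ ¬ (G.Adj x y ↔ RX φ X x y)) ↔ (x ≠ y ∧ ¬ (G'.Adj x y ↔ RX φ X' x y)) := h1
    rwa [and_iff_right hxy, and_iff_right hxy] at h2
  have hR0 : ∀ (X : Finset (Fin n × Fin n)), X ⊆ A ×ˢ B → ∀ a ∈ A, ∀ b, ¬ RX φ X a b := by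
    rintro X hX a ha b ⟨p, hp, h1 | h1⟩
    · have h2 := mem_product.mp (hX hp)
      exact hAφ p.1 h2.1 (h1.1 ▸ ha)
    · have h2 := mem_product.mp (hX hp)
      exact (hBS p.2 h2.2).2.2 (h1.1 ▸ ha)
  have hR1 : ∀ (X : Finset (Fin n × Fin n)), X ⊆ A ×ˢ B → ∀ a ∈ A, ∀ b ∈ B, (RX φ X (φ a) (φ b) ↔ (a, b) ∈ X) := by
    intro X hX a ha b hb
    constructor
    · rintro ⟨p, hp, h1 | h1⟩
      · have h2 := mem_product.mp (hX hp)
        have e1 := hφ (hA ha) (hA h2.1) h1.1
        have e2 := hφ (hBS b hb).1 (hBS p.2 h2.2).1 h1.2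
        rw [e1, e2]
        exact hp
      · have h2 := mem_product.mp (hX hp)
        have e1 := hφ (hA ha) (hBS p.2 h2.2).1 h1.1
        exact absurd (e1 ▸ ha) (hBS p.2 h2.2).2.1
    · intro h1
      exact ⟨(a, b), h1, Or.inl ⟨rfl, rfl⟩⟩
  have hXX : X = X' := by
    ext ⟨a, b⟩
    have key : ∀ a ∈ A, ∀ b ∈ B, ((a, b) ∈ X ↔ (a, b) ∈ X') := by
      intro a ha b hb
      have hab : a ≠ b := by
        rintro rfl
        exact (hBS a hb).2.1 ha
      have h1 := hadj a b hab
      have h2 := hR0 X hX a ha b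
      have h3 := hR0 X' hX' a ha b
      have h4 := hadj (φ a) (φ b) fun h => hab (hφ (hA ha) (hBS b hb).1 h)
      have h5 := hG.2 a (hA ha) b (hBS b hb).1
      have h6 := hG'.2 a (hA ha) b (hBS b hb).1
      have h7 := hR1 X hX a ha b hb
      have h8 := hR1 X' hX' a ha b hb
      have h9 := p1 h2 h3 h1
      exact h7.symm.trans ((p2 (h5.symm.trans (h9.trans h6)) h4).trans h8)
    constructor
    · intro h1
      have h2 := mem_product.mp (hX h1)
      exact (key a h2.1 b h2.2).mp h1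
    · intro h1
      have h2 := mem_product.mp (hX' h1)
      exact (key a h2.1 b h2.2).mpr h1
  subst hXX
  have hGG : G = G' := by
    ext x y
    by_cases hxy : x = y
    · subst hxy
      simp
    · exact p3 (hadj x y hxy)
  rw [hGG]

/-- choice of the set `A` -/
lemma exists_A {n : ℕ} (S : Finset (Fin n)) (hS4 : 4 ≤ S.card) (φ : Fin n → Fin n) (hφ : Set.InjOn φ S) :
    ∃ A ⊆ S, (∀ a ∈ A, φ a ∉ A) ∧
      (S.filter fun u => φ u ≠ u).card * S.card ≤ 16 * (A.card * ((S \ A).filter fun s => φ s ∉ A).card) := by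
  classical
  obtain ⟨Mv, hMv⟩ : ∃ Mv, Mv = S.filter fun u => φ u ≠ u := ⟨_, rfl⟩
  rw [← hMv]
  -- a maximal independent set
  obtain ⟨A0, hA0, hmax⟩ := Finset.exists_max_image (Mv.powerset.filter fun A => ∀ a ∈ A, φ a ∉ A) Finset.card
    ⟨∅, by simp⟩
  rw [mem_filter, mem_powerset] at hA0
  have hMS : Mv ⊆ S := by rw [hMv]; exact filter_subset _ _
  have h3 : Mv.card ≤ 3 * A0.card := by
    have hcov : Mv ⊆ A0 ∪ (S.filter fun s => φ s ∈ A0) ∪ A0.image φ := by
      intro u hu
      by_contra hcon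
      rw [mem_union, mem_union] at hcon
      push Not at hcon
      obtain ⟨⟨h1, h2⟩, h3⟩ := hcon
      have h2' : φ u ∉ A0 := fun h => h2 (mem_filter.mpr ⟨hMS hu, h⟩)
      have h4 : insert u A0 ∈ Mv.powerset.filter fun A => ∀ a ∈ A, φ a ∉ A := by
        rw [mem_filter, mem_powerset]
        refine ⟨insert_subset hu hA0.1, fun a ha => ?_⟩
        rw [mem_insert] at ha
        rw [mem_insert]
        push Not
        rcases ha with rfl | ha
        · have : φ a ≠ a := by
            rw [hMv, mem_filter] at hu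
            exact hu.2
          exact ⟨this, h2'⟩
        · refine ⟨fun h => h3 (mem_image.mpr ⟨a, ha, h⟩), hA0.2 a ha⟩
      have h5 := hmax _ h4
      rw [card_insert_of_notMem h1] at h5
      omega
    have h4 := card_le_card hcov
    have h5 := card_union_le (A0 ∪ S.filter fun s => φ s ∈ A0) (A0.image φ)
    have h6 := card_union_le A0 (S.filter fun s => φ s ∈ A0)
    have h7 : (A0.image φ).card ≤ A0.card := card_image_le
    have h8 : (S.filter fun s => φ s ∈ A0).card ≤ A0.card := by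
      refine card_le_card_of_injOn φ ?_ ?_
      · intro s hs
        rw [mem_coe, mem_filter] at hs
        exact hs.2
      · intro s hs t ht hst
        rw [mem_coe, mem_filter] at hs ht
        exact hφ hs.1 ht.1 hst
    omega
  have hgen : ∀ A ⊆ A0, S.card ≤ 2 * A.card + ((S \ A).filter fun s => φ s ∉ A).card := by
    intro A hA
    have h1 : S ⊆ A ∪ (S.filter fun s => φ s ∈ A) ∪ ((S \ A).filter fun s => φ s ∉ A) := by
      intro s hs
      rw [mem_union, mem_union, mem_filter, mem_filter, mem_sdiff]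
      tauto
    have h4 := card_le_card h1
    have h5 := card_union_le (A ∪ S.filter fun s => φ s ∈ A) ((S \ A).filter fun s => φ s ∉ A)
    have h6 := card_union_le A (S.filter fun s => φ s ∈ A)
    have h8 : (S.filter fun s => φ s ∈ A).card ≤ A.card := by
      refine card_le_card_of_injOn φ ?_ ?_
      · intro s hs
        rw [mem_coe, mem_filter] at hs
        exact hs.2
      · intro s hs t ht hst
        rw [mem_coe, mem_filter] at hs ht
        exact hφ hs.1 ht.1 hst
    omega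
  have hMc := card_le_card hMS
  rcases le_or_gt (4 * A0.card) S.card with h4 | h4
  · refine ⟨A0, hA0.1.trans hMS, hA0.2, ?_⟩
    have h5 := hgen A0 Subset.rfl
    have h6 : S.card ≤ 2 * ((S \ A0).filter fun s => φ s ∉ A0).card := by omega
    calc Mv.card * S.card ≤ (3 * A0.card) * (2 * ((S \ A0).filter fun s => φ s ∉ A0).card) := Nat.mul_le_mul h3 h6
      _ = 6 * (A0.card * ((S \ A0).filter fun s => φ s ∉ A0).card) := by ring
      _ ≤ _ := Nat.mul_le_mul_right _ (by norm_num)
  · obtain ⟨A, hA, hAc⟩ := Finset.exists_subset_card_eq (s := A0) (n := S.card / 4) (by omega)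
    refine ⟨A, hA.trans (hA0.1.trans hMS), fun a ha h => hA0.2 a (hA ha) (hA h), ?_⟩
    have h5 := hgen A hA
    have h6 : S.card ≤ 2 * ((S \ A).filter fun s => φ s ∉ A).card := by omega
    have h8 : S.card ≤ 8 * A.card := by omega
    calc Mv.card * S.card ≤ S.card * S.card := Nat.mul_le_mul_right _ hMc
      _ ≤ (8 * A.card) * (2 * ((S \ A).filter fun s => φ s ∉ A).card) := Nat.mul_le_mul h8 h6
      _ = _ := by ring

end Pool.Agent.V11271.HP
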