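import Pool.Agent.V11271.HP.Cnt

set_option autoImplicit false

/-!
# Almost all graphs are typical
-/

namespace Pool.Agent.V11271.HP

open Finset

lemma card_moved {n : ℕ} (M : Finset (Fin n)) :
    ((univ : Finset (Fin n → Fin n)).filter fun φ => ∀ u, u ∉ M → φ u = u).card ≤ n ^ M.card := by
  classical
  have h1 : ((univ : Finset (Fin n → Fin n)).filter fun φ => ∀ u, u ∉ M → φ u = u) ⊆
      Fintype.piFinset fun u => if u ∈ M then univ else {u} := by
    intro φ hφ
    rw [mem_filter] at hφ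
    rw [Fintype.mem_piFinset]
    intro u
    by_cases hu : u ∈ M
    · rw [if_pos hu]
      exact mem_univ _
    · rw [if_neg hu, mem_singleton]
      exact hφ.2 u hu
  refine (card_le_card h1).trans (le_of_eq ?_)
  rw [Fintype.card_piFinset]
  have h2 : ∀ u : Fin n, (if u ∈ M then (univ : Finset (Fin n)) else {u}).card = if u ∈ M then n else 1 := by
    intro u
    split_ifs
    · rw [card_univ, Fintype.card_fin]
    · rw [card_singleton]
  rw [prod_congr rfl fun u _ => h2 u, prod_ite_mem, univ_inter, prod_const]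

open Classical in
lemma notUE_count {n : ℕ} (S : Finset (Fin n)) (hS : 4 ≤ S.card) :
    (((univ : Finset (SimpleGraph (Fin n))).filter fun G => ¬ UE G S).card : ℝ) ≤
      Fintype.card (SimpleGraph (Fin n)) * ((1 + (n : ℝ) / 2 ^ (S.card / 16)) ^ S.card - 1) := by
  obtain ⟨Φ, hΦ⟩ : ∃ Φ : Finset (Fin n) → Finset (Fin n → Fin n), ∀ M, Φ M =
    univ.filter fun φ => (∀ u, u ∉ M → φ u = u) ∧ Set.InjOn φ S ∧ (S.filter fun u => φ u ≠ u) = M :=
    ⟨_, fun _ => rfl⟩
  have hcov : ((univ : Finset (SimpleGraph (Fin n))).filter fun G => ¬ UE G S) ⊆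
      (S.powerset.erase ∅).biUnion fun M => (Φ M).biUnion fun φ => univ.filter fun G => Emb G G S φ := by
    intro G hG
    rw [mem_filter] at hG
    obtain ⟨-, hG⟩ := hG
    unfold UE at hG
    push Not at hG
    obtain ⟨ψ, h1, u, hu, h2⟩ := hG
    obtain ⟨φ, hφ⟩ : ∃ φ : Fin n → Fin n, φ = fun v => if v ∈ S then ψ v else v := ⟨_, rfl⟩
    have hφS : ∀ v ∈ S, φ v = ψ v := fun v hv => by rw [hφ]; simp [hv]
    have hφn : ∀ v, v ∉ S → φ v = v := fun v hv => by rw [hφ]; simp [hv]
    have hE : Emb G G S φ := by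
      constructor
      · intro a ha b hb hab
        rw [hφS a ha, hφS b hb] at hab
        exact h1.1 ha hb hab
      · intro a ha b hb
        rw [hφS a ha, hφS b hb]
        exact h1.2 a ha b hb
    rw [mem_biUnion]
    refine ⟨S.filter fun v => φ v ≠ v, ?_, ?_⟩
    · rw [mem_erase, mem_powerset]
      refine ⟨?_, filter_subset _ _⟩
      intro h0
      have : u ∈ S.filter fun v => φ v ≠ v := mem_filter.mpr ⟨hu, by rw [hφS u hu]; exact h2⟩
      rw [h0] at this
      exact absurd this (notMem_empty _)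
    · rw [mem_biUnion]
      refine ⟨φ, ?_, mem_filter.mpr ⟨mem_univ _, hE⟩⟩
      rw [hΦ, mem_filter]
      refine ⟨mem_univ _, ?_, hE.1, rfl⟩
      intro v hv
      by_cases hvS : v ∈ S
      · by_contra h3
        exact hv (mem_filter.mpr ⟨hvS, h3⟩)
      · exact hφn v hvS
  obtain ⟨Γ, hΓ⟩ : ∃ Γ : ℝ, Γ = Fintype.card (SimpleGraph (Fin n)) := ⟨_, rfl⟩
  rw [← hΓ]
  have hΓ0 : 0 ≤ Γ := by rw [hΓ]; exact Nat.cast_nonneg _
  have h1 : ∀ M, ∀ φ ∈ Φ M, (((univ : Finset (SimpleGraph (Fin n))).filter fun G => Emb G G S φ).card : ℝ) ≤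
      Γ * ((2 : ℝ) ^ (S.card / 16))⁻¹ ^ M.card := by
    intro M φ hφ
    rw [hΦ, mem_filter] at hφ
    obtain ⟨-, -, hinj, hM⟩ := hφ
    obtain ⟨A, hA, hAφ, hAc⟩ := exists_A S hS φ hinj
    have h2 := constraint S A φ hinj hA hAφ
    rw [hM] at hAc
    have h3 : M.card * (S.card / 16) ≤ A.card * ((S \ A).filter fun s => φ s ∉ A).card := by
      have h4 : 16 * (M.card * (S.card / 16)) ≤ M.card * S.card := by
        calc 16 * (M.card * (S.card / 16)) = M.card * (16 * (S.card / 16)) := by ring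
          _ ≤ M.card * S.card := Nat.mul_le_mul_left _ (Nat.mul_div_le _ _)
      omega
    have h4 : ((univ : Finset (SimpleGraph (Fin n))).filter fun G => Emb G G S φ).card *
        2 ^ (M.card * (S.card / 16)) ≤ Fintype.card (SimpleGraph (Fin n)) :=
      (Nat.mul_le_mul_left _ (Nat.pow_le_pow_right (by norm_num) h3)).trans h2
    have h5 : (((univ : Finset (SimpleGraph (Fin n))).filter fun G => Emb G G S φ).card : ℝ) *
        (2 : ℝ) ^ (M.card * (S.card / 16)) ≤ Γ := by
      rw [hΓ]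
      exact_mod_cast h4
    rw [inv_pow, ← pow_mul, mul_comm (S.card / 16), ← div_eq_mul_inv, le_div_iff₀ (by positivity)]
    exact h5
  calc (((univ : Finset (SimpleGraph (Fin n))).filter fun G => ¬ UE G S).card : ℝ)
      ≤ ∑ M ∈ S.powerset.erase ∅, ∑ φ ∈ Φ M,
          (((univ : Finset (SimpleGraph (Fin n))).filter fun G => Emb G G S φ).card : ℝ) := by
        have h2 := (card_le_card hcov).trans card_biUnion_le
        have h3 : ∑ M ∈ S.powerset.erase ∅, ((Φ M).biUnion fun φ =>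
            (univ : Finset (SimpleGraph (Fin n))).filter fun G => Emb G G S φ).card ≤
            ∑ M ∈ S.powerset.erase ∅, ∑ φ ∈ Φ M,
              ((univ : Finset (SimpleGraph (Fin n))).filter fun G => Emb G G S φ).card :=
          sum_le_sum fun M _ => card_biUnion_le
        exact_mod_cast h2.trans h3
    _ ≤ ∑ M ∈ S.powerset.erase ∅, Γ * ((n : ℝ) / 2 ^ (S.card / 16)) ^ M.card := by
        refine sum_le_sum fun M _ => ?_
        calc _ ≤ ∑ φ ∈ Φ M, Γ * ((2 : ℝ) ^ (S.card / 16))⁻¹ ^ M.card := sum_le_sum fun φ hφ => h1 M φ hφ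
          _ = ((Φ M).card : ℝ) * (Γ * ((2 : ℝ) ^ (S.card / 16))⁻¹ ^ M.card) := by rw [sum_const, nsmul_eq_mul]
          _ ≤ (n : ℝ) ^ M.card * (Γ * ((2 : ℝ) ^ (S.card / 16))⁻¹ ^ M.card) := by
              refine mul_le_mul_of_nonneg_right ?_ (by positivity)
              have h2 : (Φ M).card ≤ n ^ M.card := by
                refine (card_le_card ?_).trans (card_moved M)
                intro φ hφ
                rw [hΦ, mem_filter] at hφ
                exact mem_filter.mpr ⟨mem_univ _, hφ.2.1⟩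
              exact_mod_cast h2
          _ = Γ * ((n : ℝ) / 2 ^ (S.card / 16)) ^ M.card := by
              rw [div_eq_mul_inv, mul_pow]
              ring
    _ = _ := by
        rw [← mul_sum]
        congr 1
        have h2 := prod_one_add (f := fun _ : Fin n => (n : ℝ) / 2 ^ (S.card / 16)) S
        rw [prod_const] at h2
        simp only [prod_const] at h2
        have h3 := add_sum_erase S.powerset (fun M => ((n : ℝ) / 2 ^ (S.card / 16)) ^ M.card) (empty_mem_powerset S)
        rw [card_empty, pow_zero] at h3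
        linarith

lemma pow_sub_one_le {x : ℝ} {m : ℕ} (hx : 0 ≤ x) (hmx : m * x ≤ 1) : (1 + x) ^ m - 1 ≤ 2 * (m * x) := by
  have h1 : 1 + x ≤ Real.exp x := by linarith [Real.add_one_le_exp x]
  have h2 : (1 + x) ^ m ≤ Real.exp (m * x) := by
    rw [Real.exp_nat_mul]
    exact pow_le_pow_left₀ (by linarith) h1 m
  have h0 : 0 ≤ m * x := by positivity
  have h3 := Real.abs_exp_sub_one_sub_id_le (x := m * x) (by rw [abs_of_nonneg h0]; exact hmx)
  have h4 := (abs_le.mp h3).2
  have h5 : (m * x) ^ 2 ≤ m * x := by nlinarith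
  linarith

open Classical in
lemma sum_nu {n j : ℕ} (hj : 4 ≤ j) (hjn : j * n ≤ 2 ^ (j / 16)) :
    ∑ G : SimpleGraph (Fin n), (nu j G : ℝ) ≤
      n.choose j * (Fintype.card (SimpleGraph (Fin n)) * (2 * (j * ((n : ℝ) / 2 ^ (j / 16))))) := by
  have h1 : ∑ G : SimpleGraph (Fin n), (nu j G : ℝ) =
      ∑ S : Sub j n, (((univ : Finset (SimpleGraph (Fin n))).filter fun G => ¬ UE G S.1).card : ℝ) := by
    have h2 : ∀ G : SimpleGraph (Fin n), (nu j G : ℝ) = ∑ S : Sub j n, if ¬ UE G S.1 then (1 : ℝ) else 0 := by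
      intro G
      unfold nu
      rw [card_filter]
      push_cast
      rfl
    rw [sum_congr rfl fun G _ => h2 G, sum_comm]
    refine sum_congr rfl fun S _ => ?_
    rw [card_filter]
    push_cast
    rfl
  rw [h1]
  calc _ ≤ ∑ S : Sub j n, (Fintype.card (SimpleGraph (Fin n)) * (2 * (j * ((n : ℝ) / 2 ^ (j / 16)))) : ℝ) := by
        refine sum_le_sum fun S _ => ?_
        refine (notUE_count S.1 (by rw [S.2]; exact hj)).trans ?_
        rw [S.2]
        refine mul_le_mul_of_nonneg_left ?_ (Nat.cast_nonneg _)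
        refine pow_sub_one_le (by positivity) ?_
        rw [← mul_div_assoc, div_le_one (by positivity)]
        exact_mod_cast hjn
    _ = _ := by rw [sum_const, nsmul_eq_mul, card_univ, card_Sub]

/-- typical graphs -/
def Typical {n : ℕ} (ρ : ℕ) (G : SimpleGraph (Fin n)) : Prop :=
  ∀ j, ρ ≤ j → j ≤ n → (nu j G : ℝ) * 2 ^ (j / 16) ≤ (n : ℝ) ^ 5 * n.choose j

open Classical in
/-- almost all graphs are typical -/
theorem card_not_typical {n ρ : ℕ} (hn : 1 ≤ n) (hρ : 4 ≤ ρ) (h : n ^ 2 ≤ 2 ^ (ρ / 16)) :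
    (((univ : Finset (SimpleGraph (Fin n))).filter fun G => ¬ Typical ρ G).card : ℝ) ≤
      Fintype.card (SimpleGraph (Fin n)) * ((n + 1) * (2 / (n : ℝ) ^ 3)) := by
  obtain ⟨Γ, hΓ⟩ : ∃ Γ : ℝ, Γ = Fintype.card (SimpleGraph (Fin n)) := ⟨_, rfl⟩
  rw [← hΓ]
  have hn0 : (0 : ℝ) < n := by exact_mod_cast hn
  have hΓ0 : 0 ≤ Γ := by rw [hΓ]; exact Nat.cast_nonneg _
  obtain ⟨X, hX⟩ : ∃ X : ℕ → Finset (SimpleGraph (Fin n)), ∀ j, X j =
    univ.filter fun G => (n : ℝ) ^ 5 * n.choose j < (nu j G : ℝ) * 2 ^ (j / 16) := ⟨_, fun _ => rfl⟩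
  have hcov : ((univ : Finset (SimpleGraph (Fin n))).filter fun G => ¬ Typical ρ G) ⊆
      ((range (n + 1)).filter fun j => ρ ≤ j).biUnion X := by
    intro G hG
    rw [mem_filter] at hG
    obtain ⟨-, hG⟩ := hG
    unfold Typical at hG
    push Not at hG
    obtain ⟨j, h1, h2, h3⟩ := hG
    rw [mem_biUnion]
    refine ⟨j, ?_, ?_⟩
    · rw [mem_filter, mem_range]
      exact ⟨by omega, h1⟩
    · rw [hX, mem_filter]
      exact ⟨mem_univ _, h3⟩
  have hXj : ∀ j ∈ (range (n + 1)).filter fun j => ρ ≤ j, ((X j).card : ℝ) ≤ Γ * (2 / (n : ℝ) ^ 3) := by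
    intro j hj
    rw [mem_filter, mem_range] at hj
    obtain ⟨hj1, hj2⟩ := hj
    have hjn : j * n ≤ 2 ^ (j / 16) := by
      calc j * n ≤ n * n := Nat.mul_le_mul_right _ (by omega)
        _ = n ^ 2 := by ring
        _ ≤ 2 ^ (ρ / 16) := h
        _ ≤ 2 ^ (j / 16) := Nat.pow_le_pow_right (by norm_num) (Nat.div_le_div_right hj2)
    have h1 := sum_nu (n := n) (j := j) (by omega) hjn
    have hc : (0 : ℝ) < n.choose j := by exact_mod_cast Nat.choose_pos (by omega)
    have h2 : ((X j).card : ℝ) * ((n : ℝ) ^ 5 * n.choose j / 2 ^ (j / 16)) ≤ ∑ G : SimpleGraph (Fin n), (nu j G : ℝ) := by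
      rw [← nsmul_eq_mul, ← sum_const]
      refine (sum_le_sum fun G hG => ?_).trans (sum_le_sum_of_subset_of_nonneg (subset_univ (X j))
        fun _ _ _ => Nat.cast_nonneg _)
      rw [hX, mem_filter] at hG
      rw [div_le_iff₀ (by positivity)]
      exact hG.2.le
    have h3 := h2.trans h1
    rw [← hΓ] at h3
    have h4 : ((X j).card : ℝ) * (n : ℝ) ^ 5 ≤ Γ * (2 * (j * n)) := by
      have hpos : (0 : ℝ) < n.choose j / 2 ^ (j / 16) := by positivity
      refine le_of_mul_le_mul_right ?_ hpos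
      calc ((X j).card : ℝ) * (n : ℝ) ^ 5 * (n.choose j / 2 ^ (j / 16)) =
            ((X j).card : ℝ) * ((n : ℝ) ^ 5 * n.choose j / 2 ^ (j / 16)) := by ring
        _ ≤ _ := h3
        _ = _ := by ring
    have h5 : (j : ℝ) ≤ n := by
      have : j ≤ n := by omega
      exact_mod_cast this
    have h6 : ((X j).card : ℝ) * (n : ℝ) ^ 5 ≤ Γ * (2 * (n * n)) := by
      refine h4.trans ?_
      gcongr
    rw [← mul_div_assoc, le_div_iff₀ (by positivity)]
    refine le_of_mul_le_mul_right ?_ (show (0 : ℝ) < n ^ 2 by positivity)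
    calc ((X j).card : ℝ) * (n : ℝ) ^ 3 * (n : ℝ) ^ 2 = ((X j).card : ℝ) * (n : ℝ) ^ 5 := by ring
      _ ≤ _ := h6
      _ = _ := by ring
  calc (((univ : Finset (SimpleGraph (Fin n))).filter fun G => ¬ Typical ρ G).card : ℝ)
      ≤ ∑ j ∈ (range (n + 1)).filter fun j => ρ ≤ j, ((X j).card : ℝ) := by
        exact_mod_cast (card_le_card hcov).trans card_biUnion_le
    _ ≤ ∑ j ∈ (range (n + 1)).filter fun j => ρ ≤ j, Γ * (2 / (n : ℝ) ^ 3) := sum_le_sum hXj
    _ = (((range (n + 1)).filter fun j => ρ ≤ j).card : ℝ) * (Γ * (2 / (n : ℝ) ^ 3)) := by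
        rw [sum_const, nsmul_eq_mul]
    _ ≤ ((n : ℝ) + 1) * (Γ * (2 / (n : ℝ) ^ 3)) := by
        refine mul_le_mul_of_nonneg_right ?_ (by positivity)
        have := (card_filter_le (range (n + 1)) fun j => ρ ≤ j)
        rw [card_range] at this
        exact_mod_cast this
    _ = _ := by ring

end Pool.Agent.V11271.HP
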