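import Mathlib

set_option autoImplicit false

/-!
# Iterated finite expectations
-/

namespace Pool.Agent.V11271.HP

open Finset

variable {T : ℕ → Type} [∀ m, Fintype (T m)]

/-- expectation over level `m` -/
noncomputable def EE (Wt : ∀ m, Finset (T m) → ℝ) (m : ℕ) (F : (∀ m, Finset (T m)) → ℝ)
    (P : ∀ m, Finset (T m)) : ℝ :=
  ∑ B : Finset (T m), Wt m B * F (Function.update P m B)

/-- expectation over the levels below `N` -/
noncomputable def Eit (Wt : ∀ m, Finset (T m) → ℝ) : ℕ → ((∀ m, Finset (T m)) → ℝ) → (∀ m, Finset (T m)) → ℝ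
  | 0, F => F
  | (k + 1), F => Eit Wt k (EE Wt k F)

variable {Wt : ∀ m, Finset (T m) → ℝ}

lemma EE_mono (h0 : ∀ m B, 0 ≤ Wt m B) (m : ℕ) {F F' : (∀ m, Finset (T m)) → ℝ} (h : ∀ P, F P ≤ F' P) (P) :
    EE Wt m F P ≤ EE Wt m F' P :=
  sum_le_sum fun B _ => mul_le_mul_of_nonneg_left (h _) (h0 m B)

lemma Eit_mono (h0 : ∀ m B, 0 ≤ Wt m B) (N : ℕ) {F F' : (∀ m, Finset (T m)) → ℝ} (h : ∀ P, F P ≤ F' P) (P) :
    Eit Wt N F P ≤ Eit Wt N F' P := by
  induction N generalizing F F' with
  | zero => exact h P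
  | succ k ih => exact ih fun P => EE_mono h0 k h P

lemma EE_sum {ι : Type*} (s : Finset ι) (m : ℕ) (F : ι → (∀ m, Finset (T m)) → ℝ) :
    EE Wt m (fun P => ∑ i ∈ s, F i P) = fun P => ∑ i ∈ s, EE Wt m (F i) P := by
  funext P
  unfold EE
  simp only [mul_sum]
  exact sum_comm

lemma Eit_sum {ι : Type*} (s : Finset ι) (N : ℕ) (F : ι → (∀ m, Finset (T m)) → ℝ) :
    Eit Wt N (fun P => ∑ i ∈ s, F i P) = fun P => ∑ i ∈ s, Eit Wt N (F i) P := by
  induction N generalizing F with
  | zero => rfl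
  | succ k ih =>
    show Eit Wt k (EE Wt k fun P => ∑ i ∈ s, F i P) = _
    rw [EE_sum, ih]
    rfl

lemma EE_smul (c : ℝ) (m : ℕ) (F : (∀ m, Finset (T m)) → ℝ) :
    EE Wt m (fun P => c * F P) = fun P => c * EE Wt m F P := by
  funext P
  unfold EE
  rw [mul_sum]
  exact sum_congr rfl fun B _ => by ring

lemma Eit_smul (c : ℝ) (N : ℕ) (F : (∀ m, Finset (T m)) → ℝ) :
    Eit Wt N (fun P => c * F P) = fun P => c * Eit Wt N F P := by
  induction N generalizing F with
  | zero => rfl
  | succ k ih =>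
    show Eit Wt k (EE Wt k fun P => c * F P) = _
    rw [EE_smul, ih]
    rfl

lemma EE_exists (h0 : ∀ m B, 0 ≤ Wt m B) (h1 : ∀ m, ∑ B, Wt m B = 1) (m : ℕ) (F : (∀ m, Finset (T m)) → ℝ) (P) :
    ∃ P', F P' ≤ EE Wt m F P := by
  by_contra hcon
  push Not at hcon
  have h2 : ∑ B : Finset (T m), Wt m B * F (Function.update P m B) = EE Wt m F P := rfl
  have h3 : ∑ B : Finset (T m), Wt m B * EE Wt m F P = EE Wt m F P := by
    rw [← sum_mul, h1, one_mul]
  have h4 : ∑ B : Finset (T m), Wt m B * (F (Function.update P m B) - EE Wt m F P) = 0 := by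
    simp only [mul_sub]
    rw [sum_sub_distrib, h3, h2, sub_self]
  have h5 : ∀ B ∈ (univ : Finset (Finset (T m))), 0 ≤ Wt m B * (F (Function.update P m B) - EE Wt m F P) :=
    fun B _ => mul_nonneg (h0 m B) (sub_nonneg.mpr (hcon _).le)
  have h6 := (sum_eq_zero_iff_of_nonneg h5).mp h4
  have h7 : ∀ B ∈ (univ : Finset (Finset (T m))), Wt m B = 0 := by
    intro B hB
    have h8 := h6 B hB
    rcases mul_eq_zero.mp h8 with h9 | h9
    · exact h9
    · exact absurd h9 (sub_pos.mpr (hcon _)).ne'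
  have h8 := h1 m
  rw [sum_eq_zero h7] at h8
  exact zero_ne_one h8

lemma Eit_exists (h0 : ∀ m B, 0 ≤ Wt m B) (h1 : ∀ m, ∑ B, Wt m B = 1) (N : ℕ)
    (F : (∀ m, Finset (T m)) → ℝ) (P) : ∃ P', F P' ≤ Eit Wt N F P := by
  induction N generalizing F with
  | zero => exact ⟨P, le_rfl⟩
  | succ k ih =>
    obtain ⟨P', hP'⟩ := ih (EE Wt k F)
    obtain ⟨P'', hP''⟩ := EE_exists h0 h1 k F P'
    exact ⟨P'', hP''.trans hP'⟩

/-- the product bound -/
theorem Eit_prod (h0 : ∀ m B, 0 ≤ Wt m B) (h1 : ∀ m, ∑ B, Wt m B = 1) (D : ∀ m, Finset (T m) → ℤ)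
    (g : ℕ → (∀ m, Finset (T m)) → ℤ) (hg : ∀ m P m' B, m ≤ m' → g m (Function.update P m' B) = g m P)
    (b : ℕ → ℝ) (N : ℕ) (M : Finset ℕ) (hMN : ∀ m ∈ M, m < N)
    (hb : ∀ m ∈ M, ∀ x, ∑ B, Wt m B * (if D m B = x then 1 else 0) ≤ b m) (P) :
    Eit Wt N (fun P => ∏ m ∈ M, if D m (P m) = g m P then (1 : ℝ) else 0) P ≤ ∏ m ∈ M, b m := by
  induction N generalizing M with
  | zero =>
    have : M = ∅ := by
      rw [eq_empty_iff_forall_notMem]
      intro m hm
      exact absurd (hMN m hm) (by omega)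
    subst this
    simp [Eit]
  | succ N ih =>
    show Eit Wt N (EE Wt N _) P ≤ _
    have hindep : ∀ (M' : Finset ℕ), (∀ m ∈ M', m < N) → ∀ P B,
        (∏ m ∈ M', if D m (Function.update P N B m) = g m (Function.update P N B) then (1 : ℝ) else 0) =
          ∏ m ∈ M', if D m (P m) = g m P then (1 : ℝ) else 0 := by
      intro M' hM' P B
      refine prod_congr rfl fun m hm => ?_
      have hm' := hM' m hm
      rw [Function.update_of_ne hm'.ne, hg m P N B hm'.le]
    by_cases hN : N ∈ M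
    · have hE : ∀ P, EE Wt N (fun P => ∏ m ∈ M, if D m (P m) = g m P then (1 : ℝ) else 0) P ≤
          b N * ∏ m ∈ M.erase N, if D m (P m) = g m P then (1 : ℝ) else 0 := by
        intro P
        unfold EE
        have e1 : ∀ B : Finset (T N), Wt N B * (∏ m ∈ M, if D m (Function.update P N B m) =
            g m (Function.update P N B) then (1 : ℝ) else 0) =
            (Wt N B * (if D N B = g N P then 1 else 0)) *
              ∏ m ∈ M.erase N, if D m (P m) = g m P then (1 : ℝ) else 0 := by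
          intro B
          rw [← mul_prod_erase M _ hN, hindep (M.erase N) (fun m hm => by
            have h2 := hMN m (mem_of_mem_erase hm)
            have h3 := ne_of_mem_erase hm
            omega), Function.update_self, hg N P N B le_rfl]
          ring
        rw [sum_congr rfl fun B _ => e1 B, ← sum_mul]
        refine mul_le_mul_of_nonneg_right (hb N hN _) ?_
        refine prod_nonneg fun m _ => ?_
        split_ifs <;> norm_num
      refine (Eit_mono h0 N hE P).trans ?_
      rw [Eit_smul, ← mul_prod_erase M b hN]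
      have hbN : 0 ≤ b N := by
        refine le_trans ?_ (hb N hN 0)
        refine sum_nonneg fun B _ => mul_nonneg (h0 N B) ?_
        split_ifs <;> norm_num
      refine mul_le_mul_of_nonneg_left ?_ hbN
      refine ih (M.erase N) (fun m hm => ?_) fun m hm => hb m (mem_of_mem_erase hm)
      have h2 := hMN m (mem_of_mem_erase hm)
      have h3 := ne_of_mem_erase hm
      omega
    · have hM : ∀ m ∈ M, m < N := by
        intro m hm
        have h2 := hMN m hm
        have h3 : m ≠ N := fun h => hN (h ▸ hm)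
        omega
      have hE : ∀ P, EE Wt N (fun P => ∏ m ∈ M, if D m (P m) = g m P then (1 : ℝ) else 0) P ≤
          ∏ m ∈ M, if D m (P m) = g m P then (1 : ℝ) else 0 := by
        intro P
        unfold EE
        have e1 : ∀ B : Finset (T N), Wt N B * (∏ m ∈ M, if D m (Function.update P N B m) =
            g m (Function.update P N B) then (1 : ℝ) else 0) =
            Wt N B * ∏ m ∈ M, if D m (P m) = g m P then (1 : ℝ) else 0 := by
          intro B
          rw [hindep M hM P B]
        rw [sum_congr rfl fun B _ => e1 B, ← sum_mul, h1, one_mul]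
      exact (Eit_mono h0 N hE P).trans (ih M hM hb)

end Pool.Agent.V11271.HP
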