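import Pool.Agent.V11271.HP.Typ

set_option autoImplicit false

/-!
# Harary coefficients
-/

namespace Pool.Agent.V11271.HP

open Finset

/-- the blocks allowed by `P` -/
def blockOK (P : ∀ m, Finset (Ty m)) {n : ℕ} (G : SimpleGraph (Fin n)) (B : Finset (Fin n)) : Prop :=
  B.card = 1 ∨ typ G (⟨B, rfl⟩ : Sub B.card n) ∈ P B.card

lemma blockOK_iff (P : ∀ m, Finset (Ty m)) {m n : ℕ} (G : SimpleGraph (Fin n)) (S : Sub m n) (hm : 2 ≤ m) :
    blockOK P G S.1 ↔ typ G S ∈ P m := by
  obtain ⟨B, rfl⟩ := S
  unfold blockOK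
  constructor
  · rintro (h | h)
    · change B.card = 1 at h
      omega
    · exact h
  · intro h
    exact Or.inr h

open Classical in
/-- Harary coefficients -/
noncomputable def hh (P : ∀ m, Finset (Ty m)) {n : ℕ} (G : SimpleGraph (Fin n)) (k : ℕ) : ℕ :=
  ((univ : Finset (Finpartition (univ : Finset (Fin n)))).filter fun π =>
    π.parts.card = k ∧ ∀ B ∈ π.parts, blockOK P G B).card

open Classical in
/-- the part of a Harary coefficient coming from small blocks -/
noncomputable def lo (P : ∀ m, Finset (Ty m)) {n : ℕ} (G : SimpleGraph (Fin n)) (m : ℕ) : ℕ :=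
  ((univ : Finset (Finpartition (univ : Finset (Fin n)))).filter fun π =>
    (π.parts.card = n - m + 1 ∧ ∀ B ∈ π.parts, blockOK P G B) ∧ ∀ B ∈ π.parts, B.card < m).card

lemma lo_update (P : ∀ m, Finset (Ty m)) {n : ℕ} (G : SimpleGraph (Fin n)) {m m' : ℕ} (B : Finset (Ty m'))
    (h : m ≤ m') : lo (Function.update P m' B) G m = lo P G m := by
  unfold lo
  congr 1
  ext π
  simp only [mem_filter, mem_univ, true_and, and_congr_left_iff, and_congr_right_iff]
  intro h1 _
  refine forall₂_congr fun C hC => ?_
  unfold blockOK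
  have h2 : C.card ≠ m' := by
    have := h1 C hC
    omega
  rw [Function.update_of_ne h2]

/-- the partition with one block `S` and singletons otherwise -/
def single {n : ℕ} (S : Finset (Fin n)) (hS : S ≠ ∅) : Finpartition (univ : Finset (Fin n)) :=
  (⊥ : Finpartition (univ \ S)).extend (b := S) hS sdiff_disjoint (by
    show univ \ S ∪ S = univ
    simp)

lemma mem_single {n : ℕ} {S : Finset (Fin n)} {hS : S ≠ ∅} {C : Finset (Fin n)} :
    C ∈ (single S hS).parts ↔ C = S ∨ ∃ x, x ∉ S ∧ {x} = C := by
  show C ∈ insert S (⊥ : Finpartition (univ \ S)).parts ↔ _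
  rw [mem_insert, Finpartition.parts_bot]
  simp

lemma card_single {n : ℕ} {S : Finset (Fin n)} {hS : S ≠ ∅} (h2 : 2 ≤ S.card) :
    (single S hS).parts.card = n - S.card + 1 := by
  show (insert S (⊥ : Finpartition (univ \ S)).parts).card = _
  rw [card_insert_of_notMem]
  · rw [Finpartition.parts_bot, card_map, card_sdiff_of_subset (subset_univ _), card_univ, Fintype.card_fin]
  · rw [Finpartition.parts_bot]
    simp only [mem_map, Function.Embedding.coeFn_mk, not_exists, not_and]
    intro x _ h
    rw [← h, card_singleton] at h2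
    omega

/-- structure of the partitions with a large block -/
lemma eq_single {n m : ℕ} (hmn : m ≤ n) (π : Finpartition (univ : Finset (Fin n)))
    (h1 : π.parts.card = n - m + 1) {B : Finset (Fin n)} (hB : B ∈ π.parts) (h2 : m ≤ B.card) :
    B.card = m ∧ ∀ hB0 : B ≠ ∅, π = single B hB0 := by
  have hs := π.sum_card_parts
  rw [← add_sum_erase _ _ hB, card_univ, Fintype.card_fin] at hs
  have hc : (π.parts.erase B).card = n - m := by
    rw [card_erase_of_mem hB, h1]
    omega
  have hpos : ∀ C ∈ π.parts.erase B, 1 ≤ C.card := by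
    intro C hC
    exact card_pos.mpr (π.nonempty_of_mem_parts (mem_of_mem_erase hC))
  have h3 : ∑ C ∈ π.parts.erase B, 1 ≤ ∑ C ∈ π.parts.erase B, C.card := sum_le_sum hpos
  rw [sum_const, smul_eq_mul, mul_one, hc] at h3
  have hBm : B.card = m := by omega
  refine ⟨hBm, fun hB0 => ?_⟩
  have h4 : ∀ C ∈ π.parts.erase B, 1 = C.card := by
    have h5 : ∑ C ∈ π.parts.erase B, 1 = ∑ C ∈ π.parts.erase B, C.card := by
      rw [sum_const, smul_eq_mul, mul_one, hc]
      omega
    exact (sum_eq_sum_iff_of_le hpos).mp h5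
  refine Finpartition.ext ?_
  ext C
  rw [mem_single]
  constructor
  · intro hC
    by_cases hCB : C = B
    · exact Or.inl hCB
    · right
      have h5 := h4 C (mem_erase.mpr ⟨hCB, hC⟩)
      obtain ⟨x, hx⟩ := card_eq_one.mp h5.symm
      refine ⟨x, fun hxB => ?_, hx.symm⟩
      have h6 := π.disjoint hC hB hCB
      exact disjoint_left.mp h6 (by rw [hx]; exact mem_singleton_self x) hxB
  · rintro (rfl | ⟨x, hx, rfl⟩)
    · exact hB
    · obtain ⟨C, hC, hxC⟩ := π.exists_mem (mem_univ x)
      have hCB : C ≠ B := by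
        rintro rfl
        exact hx hxC
      have h5 := h4 C (mem_erase.mpr ⟨hCB, hC⟩)
      obtain ⟨y, hy⟩ := card_eq_one.mp h5.symm
      rw [hy, mem_singleton] at hxC
      subst hxC
      rw [← hy]
      exact hC

/-- the leading part of a Harary coefficient -/
theorem hh_eq (P : ∀ m, Finset (Ty m)) {m n : ℕ} (G : SimpleGraph (Fin n)) (hm : 2 ≤ m) (hmn : m ≤ n) :
    hh P G (n - m + 1) = NN G (P m) + lo P G m := by
  classical
  unfold hh lo
  rw [← card_filter_add_card_filter_not (s := (univ : Finset (Finpartition (univ : Finset (Fin n)))).filter fun π =>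
    π.parts.card = n - m + 1 ∧ ∀ B ∈ π.parts, blockOK P G B) (fun π => ∀ B ∈ π.parts, B.card < m), add_comm]
  congr 1
  · unfold NN
    symm
    refine card_bij (fun S _ => single S.1 ?_) ?_ ?_ ?_
    · intro h
      have := S.2
      rw [h, card_empty] at this
      omega
    · intro S hS
      rw [mem_filter] at hS
      have hS2 : 2 ≤ S.1.card := by rw [S.2]; exact hm
      simp only [mem_filter, mem_univ, true_and]
      refine ⟨⟨?_, ?_⟩, ?_⟩
      · rw [card_single hS2, S.2]
      · intro B hB
        rw [mem_single] at hB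
        rcases hB with rfl | ⟨x, _, rfl⟩
        · exact (blockOK_iff P G S hm).mpr hS.2
        · exact Or.inl (card_singleton x)
      · intro h
        have := h S.1 (mem_single.mpr (Or.inl rfl))
        rw [S.2] at this
        exact lt_irrefl _ this
    · intro S hS S' hS' h
      have h1 : S.1 ∈ (single S'.1 (by
          intro h
          have := S'.2
          rw [h, card_empty] at this
          omega)).parts := by
        rw [← h]
        exact mem_single.mpr (Or.inl rfl)
      rw [mem_single] at h1
      rcases h1 with h1 | ⟨x, _, h1⟩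
      · exact Subtype.ext h1
      · exfalso
        have := S.2
        rw [← h1, card_singleton] at this
        omega
    · intro π hπ
      simp only [mem_filter, mem_univ, true_and] at hπ
      obtain ⟨⟨h1, h2⟩, h3⟩ := hπ
      push Not at h3
      obtain ⟨B, hB, hBm⟩ := h3
      obtain ⟨h4, h5⟩ := eq_single hmn π h1 hB hBm
      refine ⟨⟨B, h4⟩, ?_, ?_⟩
      · rw [mem_filter]
        exact ⟨mem_univ _, (blockOK_iff P G ⟨B, h4⟩ hm).mp (h2 B hB)⟩
      · exact (h5 _).symm
  · rw [filter_filter]

/-- there is exactly one partition into `n` blocks -/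
lemma hh_top (P : ∀ m, Finset (Ty m)) {n : ℕ} (G : SimpleGraph (Fin n)) : hh P G n = 1 := by
  classical
  unfold hh
  rw [card_eq_one]
  refine ⟨⊥, ?_⟩
  ext π
  simp only [mem_filter, mem_univ, true_and, mem_singleton]
  have key : ∀ π : Finpartition (univ : Finset (Fin n)), π.parts.card = n → ∀ C ∈ π.parts, C.card = 1 := by
    intro π h C hC
    have hs := π.sum_card_parts
    rw [card_univ, Fintype.card_fin] at hs
    have hpos : ∀ C ∈ π.parts, 1 ≤ C.card := fun C hC => card_pos.mpr (π.nonempty_of_mem_parts hC)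
    have h5 : ∑ C ∈ π.parts, 1 = ∑ C ∈ π.parts, C.card := by
      rw [sum_const, smul_eq_mul, mul_one, h, hs]
    exact ((sum_eq_sum_iff_of_le hpos).mp h5 C hC).symm
  constructor
  · rintro ⟨h1, _⟩
    refine Finpartition.ext ?_
    ext C
    rw [Finpartition.parts_bot]
    simp only [mem_map, mem_univ, Function.Embedding.coeFn_mk, true_and]
    constructor
    · intro hC
      obtain ⟨x, hx⟩ := card_eq_one.mp (key π h1 C hC)
      exact ⟨x, hx.symm⟩
    · rintro ⟨x, rfl⟩
      obtain ⟨C, hC, hxC⟩ := π.exists_mem (mem_univ x)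
      obtain ⟨y, hy⟩ := card_eq_one.mp (key π h1 C hC)
      rw [hy, mem_singleton] at hxC
      subst hxC
      rw [← hy]
      exact hC
  · rintro rfl
    refine ⟨by rw [Finpartition.parts_bot]; simp, ?_⟩
    intro B hB
    rw [Finpartition.parts_bot] at hB
    simp only [mem_map, mem_univ, Function.Embedding.coeFn_mk, true_and] at hB
    obtain ⟨x, rfl⟩ := hB
    exact Or.inl (card_singleton x)

/-- no partition has more than `n` blocks -/
lemma hh_big (P : ∀ m, Finset (Ty m)) {n k : ℕ} (G : SimpleGraph (Fin n)) (hk : n < k) : hh P G k = 0 := by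
  classical
  unfold hh
  rw [card_eq_zero, filter_eq_empty_iff]
  rintro π - ⟨h1, -⟩
  have hs := π.sum_card_parts
  rw [card_univ, Fintype.card_fin] at hs
  have hpos : ∀ C ∈ π.parts, 1 ≤ C.card := fun C hC => card_pos.mpr (π.nonempty_of_mem_parts hC)
  have h5 : ∑ C ∈ π.parts, 1 ≤ ∑ C ∈ π.parts, C.card := sum_le_sum hpos
  rw [sum_const, smul_eq_mul, mul_one, h1, hs] at h5
  omega

end Pool.Agent.V11271.HP
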