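import Mathlib

set_option autoImplicit false

/-!
# Numerical estimates
-/

namespace Pool.Agent.V11271.HP

open Finset Filter Topology

/-- the product of the binomial coefficients -/
noncomputable def Pr (n : ℕ) : ℝ := ∏ m ∈ range (n + 1), (n.choose m : ℝ)

/-- the quotient of consecutive products -/
noncomputable def bb (n : ℕ) : ℝ := ((n : ℝ) + 1) ^ n / n.factorial

lemma Pr_pos (n : ℕ) : 0 < Pr n := by
  unfold Pr
  refine prod_pos fun m hm => ?_
  have := Nat.choose_pos (show m ≤ n by rw [mem_range] at hm; omega)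
  exact_mod_cast this

lemma Pr_succ (n : ℕ) : Pr (n + 1) = Pr n * bb n := by
  unfold Pr
  rw [prod_range_succ, Nat.choose_self, Nat.cast_one, mul_one]
  have h1 : ∀ m ∈ range (n + 1), ((n + 1).choose m : ℝ) = (n.choose m : ℝ) * (((n : ℝ) + 1) / ((n + 1 - m : ℕ) : ℝ)) := by
    intro m hm
    rw [mem_range] at hm
    have hpos : (0 : ℝ) < ((n + 1 - m : ℕ) : ℝ) := by exact_mod_cast (show 0 < n + 1 - m by omega)
    rw [mul_div_assoc', eq_div_iff hpos.ne']
    have h2 := Nat.add_one_mul_choose_eq n (n - m)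
    have e1 : n.choose (n - m) = n.choose m := Nat.choose_symm (by omega)
    have e2 : (n + 1).choose (n - m + 1) = (n + 1).choose m := by
      rw [← Nat.choose_symm (show m ≤ n + 1 by omega)]
      congr 1
      omega
    have e3 : n - m + 1 = n + 1 - m := by omega
    rw [e1, e2, e3] at h2
    have h3 : ((n : ℝ) + 1) * n.choose m = (n + 1).choose m * ((n + 1 - m : ℕ) : ℝ) := by exact_mod_cast h2
    linarith
  rw [prod_congr rfl h1, prod_mul_distrib]
  congr 1
  rw [prod_div_distrib, prod_const, card_range]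
  have h2 : ∏ m ∈ range (n + 1), ((n + 1 - m : ℕ) : ℝ) = ((n + 1).factorial : ℝ) := by
    rw [← prod_range_reflect]
    rw [← prod_range_add_one_eq_factorial]
    push_cast
    refine prod_congr rfl fun m hm => ?_
    rw [mem_range] at hm
    have : n + 1 - (n - m) = m + 1 := by omega
    rw [this]
    push_cast
    ring
  rw [h2, Nat.factorial_succ]
  unfold bb
  have h3 : (0 : ℝ) < (n.factorial : ℝ) := by exact_mod_cast n.factorial_pos
  push_cast
  rw [pow_succ]
  have h4 : (0 : ℝ) < (n : ℝ) + 1 := by positivity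
  field_simp

lemma three_terms (x : ℝ) (hx : 0 ≤ x) (n : ℕ) : 1 + n * x + n * (n - 1) / 2 * x ^ 2 ≤ (1 + x) ^ n := by
  induction n with
  | zero => simp
  | succ n ih =>
    have h1 : (1 + x) ^ (n + 1) = (1 + x) ^ n * (1 + x) := pow_succ _ _
    rw [h1]
    have h2 : (1 + n * x + n * (n - 1) / 2 * x ^ 2) * (1 + x) ≤ (1 + x) ^ n * (1 + x) := by
      gcongr
    refine le_trans ?_ h2
    push_cast
    have h3 : (0 : ℝ) ≤ n * (n - 1) := by
      rcases Nat.eq_zero_or_pos n with h0 | h0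
      · rw [h0]; simp
      · have : (1 : ℝ) ≤ n := by exact_mod_cast h0
        apply mul_nonneg <;> linarith
    have h4 : 0 ≤ (n : ℝ) * (n - 1) * x ^ 3 := by positivity
    nlinarith

lemma bb_succ (n : ℕ) (hn : 4 ≤ n) : 12 / 5 * bb n ≤ bb (n + 1) := by
  unfold bb
  have h3 : (0 : ℝ) < (n.factorial : ℝ) := by exact_mod_cast n.factorial_pos
  have h4 : (0 : ℝ) < (n : ℝ) + 1 := by positivity
  have hn4 : (4 : ℝ) ≤ n := by exact_mod_cast hn
  rw [Nat.factorial_succ]
  push_cast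
  rw [← mul_div_assoc, div_le_div_iff₀ (by positivity) (by positivity)]
  have h5 := three_terms (1 / ((n : ℝ) + 1)) (by positivity) (n + 1)
  have h6 : (12 / 5 : ℝ) ≤ (1 + 1 / ((n : ℝ) + 1)) ^ (n + 1) := by
    refine le_trans ?_ h5
    push_cast
    have : (1 : ℝ) + (n + 1) * (1 / (n + 1)) + (n + 1) * (n + 1 - 1) / 2 * (1 / (n + 1)) ^ 2 =
        2 + n / (2 * (n + 1)) := by
      field_simp
      ring
    rw [this]
    have : (2 / 5 : ℝ) ≤ n / (2 * (n + 1)) := by
      rw [le_div_iff₀ (by positivity)]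
      linarith
    linarith
  have h7 : (1 + 1 / ((n : ℝ) + 1)) ^ (n + 1) * ((n : ℝ) + 1) ^ (n + 1) = ((n : ℝ) + 1 + 1) ^ (n + 1) := by
    rw [← mul_pow]
    congr 1
    field_simp
  calc 12 / 5 * ((n : ℝ) + 1) ^ n * (((n : ℝ) + 1) * n.factorial) =
        (12 / 5 * ((n : ℝ) + 1) ^ (n + 1)) * n.factorial := by rw [pow_succ]; ring
    _ ≤ ((1 + 1 / ((n : ℝ) + 1)) ^ (n + 1) * ((n : ℝ) + 1) ^ (n + 1)) * n.factorial := by gcongr
    _ = _ := by rw [h7]

lemma bb_ge (k : ℕ) : (12 / 5 : ℝ) ^ k ≤ bb (k + 4) := by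
  induction k with
  | zero =>
    unfold bb
    norm_num [Nat.factorial]
  | succ k ih =>
    have h1 := bb_succ (k + 4) (by omega)
    rw [pow_succ]
    calc (12 / 5 : ℝ) ^ k * (12 / 5) ≤ bb (k + 4) * (12 / 5) := by gcongr
      _ = 12 / 5 * bb (k + 4) := by ring
      _ ≤ bb (k + 4 + 1) := h1
      _ = bb (k + 1 + 4) := by congr 1

lemma Pr_ge (k : ℕ) : (12 / 5 : ℝ) ^ (k * (k - 1) / 2) ≤ Pr (k + 4) := by
  induction k with
  | zero =>
    unfold Pr
    norm_num [prod_range_succ, Nat.choose]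
  | succ k ih =>
    have h1 : Pr (k + 1 + 4) = Pr (k + 4) * bb (k + 4) := by
      rw [← Pr_succ]
    have h2 : (k + 1) * (k + 1 - 1) / 2 = k * (k - 1) / 2 + k := by
      have h3 : (k + 1) * (k + 1 - 1) = k * (k - 1) + 2 * k := by
        rcases Nat.eq_zero_or_pos k with h0 | h0
        · subst h0; rfl
        · obtain ⟨j, rfl⟩ : ∃ j, k = j + 1 := ⟨k - 1, by omega⟩
          simp only [Nat.add_sub_cancel]
          ring
      rw [h3]
      omega
    rw [h1, h2, pow_add]
    exact mul_le_mul ih (bb_ge k) (by positivity) (Pr_pos _).le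

lemma log_Pr (n : ℕ) (hn : 5 ≤ n) :
    (((n : ℝ) - 4) * (n - 5) / 2) * (5 / 4 * Real.log 2) ≤ Real.log (Pr n) := by
  obtain ⟨k, rfl⟩ : ∃ k, n = k + 4 := ⟨n - 4, by omega⟩
  have h1 := Pr_ge k
  have h2 := Real.log_le_log (by positivity) h1
  rw [Real.log_pow] at h2
  have h3 : 5 / 4 * Real.log 2 ≤ Real.log (12 / 5) := by
    have h4 : Real.log ((2 : ℝ) ^ 5) ≤ Real.log ((12 / 5 : ℝ) ^ 4) := Real.log_le_log (by norm_num) (by norm_num)
    rw [Real.log_pow, Real.log_pow] at h4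
    push_cast at h4
    linarith
  have h5 : ((k * (k - 1) / 2 : ℕ) : ℝ) = (((k + 4 : ℕ) : ℝ) - 4) * ((k + 4 : ℕ) - 5) / 2 := by
    have h6 : 2 * (k * (k - 1) / 2) = k * (k - 1) := Nat.mul_div_cancel' (Nat.even_mul_pred_self k).two_dvd
    have h7 : (2 : ℝ) * ((k * (k - 1) / 2 : ℕ) : ℝ) = k * ((k - 1 : ℕ) : ℝ) := by exact_mod_cast h6
    rw [Nat.cast_sub (by omega)] at h7
    push_cast
    push_cast at h7
    linarith
  rw [h5] at h2
  refine le_trans ?_ h2
  have h6 : (0 : ℝ) ≤ (((k + 4 : ℕ) : ℝ) - 4) * ((k + 4 : ℕ) - 5) / 2 := by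
    rw [← h5]
    exact Nat.cast_nonneg _
  exact mul_le_mul_of_nonneg_left h3 h6

/-- the product over the large sizes -/
lemma log_prod_Icc (n : ℕ) : Real.log (Pr n) - (n : ℝ) / 16 * (n * Real.log 2) ≤
    ∑ m ∈ Icc (n / 16) n, Real.log (n.choose m) := by
  have h1 : Real.log (Pr n) = ∑ m ∈ range (n + 1), Real.log (n.choose m) := by
    unfold Pr
    rw [Real.log_prod]
    intro m hm
    have := Nat.choose_pos (show m ≤ n by rw [mem_range] at hm; omega)
    exact_mod_cast this.ne'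
  have h2 : range (n + 1) = range (n / 16) ∪ Icc (n / 16) n := by
    ext x
    rw [mem_union, mem_range, mem_range, mem_Icc]
    omega
  have h3 : Disjoint (range (n / 16)) (Icc (n / 16) n) := by
    rw [disjoint_left]
    intro x h4 h5
    rw [mem_range] at h4
    rw [mem_Icc] at h5
    omega
  rw [h1, h2, sum_union h3]
  have h4 : ∑ m ∈ range (n / 16), Real.log (n.choose m) ≤ ∑ m ∈ range (n / 16), (n * Real.log 2) := by
    refine sum_le_sum fun m hm => ?_
    rw [mem_range] at hm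
    rw [← Real.log_pow]
    refine Real.log_le_log ?_ ?_
    · exact_mod_cast Nat.choose_pos (show m ≤ n by omega)
    · exact_mod_cast Nat.choose_le_two_pow n m
  rw [sum_const, card_range, nsmul_eq_mul] at h4
  have h5 : ((n / 16 : ℕ) : ℝ) ≤ (n : ℝ) / 16 := by
    have := @Nat.cast_div_le ℝ _ _ _ n 16
    exact_mod_cast this
  have h6 : 0 ≤ (n : ℝ) * Real.log 2 := by positivity
  have h7 := mul_le_mul_of_nonneg_right h5 h6
  linarith

lemma sqrt_log_small (e : ℝ) (he : 0 < e) : ∀ᶠ n : ℕ in atTop, Real.sqrt n * Real.log n ≤ e * n := by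
  have h1 : Tendsto (fun x : ℝ => Real.sqrt x * Real.log x / x) atTop (𝓝 0) := by
    have h2 : Tendsto (fun x : ℝ => Real.log x / x ^ (1 / 2 : ℝ)) atTop (𝓝 0) :=
      (isLittleO_log_rpow_atTop (show (0 : ℝ) < 1 / 2 by norm_num)).tendsto_div_nhds_zero
    refine h2.congr' ?_
    filter_upwards [eventually_gt_atTop 0] with x hx
    rw [Real.sqrt_eq_rpow]
    have h3 : (0 : ℝ) < x ^ (1 / 2 : ℝ) := by positivity
    have h4 : x ^ (1 / 2 : ℝ) * x ^ (1 / 2 : ℝ) = x := by
      rw [← Real.rpow_add hx]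
      norm_num
    rw [div_eq_div_iff h3.ne' hx.ne']
    calc Real.log x * x = Real.log x * (x ^ (1 / 2 : ℝ) * x ^ (1 / 2 : ℝ)) := by rw [h4]
      _ = _ := by ring
  have h2 := (h1.comp tendsto_natCast_atTop_atTop).eventually_le_const he
  filter_upwards [h2, eventually_gt_atTop 0] with n h3 h4
  have h5 : (0 : ℝ) < n := by exact_mod_cast h4
  simp only [Function.comp] at h3
  rwa [div_le_iff₀ h5] at h3

lemma natsqrt_le (n : ℕ) : (Nat.sqrt n : ℝ) ≤ Real.sqrt n := Real.nat_sqrt_le_real_sqrt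

/-- the core size -/
def rho (n : ℕ) : ℕ := Nat.sqrt (n / 16) - 2

lemma tendsto_rho : Tendsto (fun n => rho n / 16) atTop atTop := by
  rw [tendsto_atTop]
  intro b
  filter_upwards [eventually_ge_atTop (16 * ((16 * b + 2) * (16 * b + 2)))] with n hn
  unfold rho
  have h1 : (16 * b + 2) * (16 * b + 2) ≤ n / 16 := by omega
  have h2 := Nat.le_sqrt.mpr h1
  omega

lemma num1 : ∀ᶠ n : ℕ in atTop, 3 * n ^ 9 < 2 ^ (rho n / 16) := by
  have h1 : Tendsto (fun s : ℕ => (s : ℝ) ^ 18 / 2 ^ s) atTop (𝓝 0) :=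
    tendsto_pow_const_div_const_pow_of_one_lt 18 (by norm_num : (1 : ℝ) < 2)
  have h2 := h1.eventually_lt_const (show (0 : ℝ) < 1 / (2 * (3 * 6400 ^ 9)) by positivity)
  have h3 : Tendsto (fun n => rho n / 16 + 1) atTop atTop := tendsto_atTop_mono (fun n => Nat.le_succ _) tendsto_rho
  filter_upwards [h3.eventually h2, eventually_ge_atTop 64] with n h4 h5
  obtain ⟨t, ht⟩ : ∃ t, t = rho n / 16 := ⟨_, rfl⟩
  rw [← ht] at h4 ⊢
  have h6 : n ≤ 6400 * (t + 1) ^ 2 := by
    have h7 : rho n < 16 * (t + 1) := by omega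
    unfold rho at h7
    have h8 : Nat.sqrt (n / 16) < 16 * (t + 1) + 2 := by omega
    have h9 := Nat.sqrt_lt.mp h8
    have h10 : n < 16 * ((16 * (t + 1) + 2) * (16 * (t + 1) + 2)) := by omega
    nlinarith
  have h7 : (3 * n ^ 9 : ℕ) ≤ 3 * (6400 * (t + 1) ^ 2) ^ 9 := by gcongr
  have h8 : (3 * (6400 * (t + 1) ^ 2) ^ 9 : ℕ) < 2 ^ t := by
    have h9 : (((t + 1 : ℕ) : ℝ)) ^ 18 * (2 * (3 * 6400 ^ 9)) < 2 ^ (t + 1) := by
      rw [div_lt_div_iff₀ (by positivity) (by positivity)] at h4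
      linarith
    have h10 : ((3 * (6400 * (t + 1) ^ 2) ^ 9 : ℕ) : ℝ) < ((2 ^ t : ℕ) : ℝ) := by
      push_cast
      push_cast at h9
      have e0 : (2 : ℝ) ^ (t + 1) = 2 ^ t * 2 := pow_succ _ _
      have e1 : (3 : ℝ) * (6400 * (t + 1) ^ 2) ^ 9 = ((t : ℝ) + 1) ^ 18 * (3 * 6400 ^ 9) := by ring
      rw [e1]
      linarith
    exact_mod_cast h10
  exact lt_of_le_of_lt h7 h8

lemma num2 : ∀ᶠ n : ℕ in atTop, 2 * (n : ℝ) ^ (Nat.sqrt n + 5) ≤ 2 ^ (n / 16 / 16) := by
  have hl2 : 0 < Real.log 2 := Real.log_pos (by norm_num)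
  filter_upwards [sqrt_log_small (Real.log 2 / 256 / 8) (by positivity), eventually_ge_atTop 10000] with n h1 h2
  have hn : (10000 : ℝ) ≤ n := by exact_mod_cast h2
  have hn0 : (0 : ℝ) < n := by linarith
  rw [← Real.log_le_log_iff (by positivity) (by positivity), Real.log_mul (by norm_num) (by positivity),
    Real.log_pow, Real.log_pow]
  have h3 : (n : ℝ) / 256 - 1 ≤ ((n / 16 / 16 : ℕ) : ℝ) := by
    have h4 : n / 16 / 16 = n / 256 := by omega
    rw [h4]
    have h5 : n < 256 * (n / 256 + 1) := by omega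
    have h6 : (n : ℝ) < 256 * (((n / 256 : ℕ) : ℝ) + 1) := by exact_mod_cast h5
    linarith
  have h4 : (((Nat.sqrt n + 5 : ℕ)) : ℝ) ≤ 2 * Real.sqrt n := by
    push_cast
    have h5 := natsqrt_le n
    have h6 : (5 : ℝ) ≤ Real.sqrt n := by
      refine Real.le_sqrt_of_sq_le ?_
      linarith
    linarith
  have hlog : 0 ≤ Real.log n := Real.log_nonneg (by linarith)
  have h5 : (((Nat.sqrt n + 5 : ℕ)) : ℝ) * Real.log n ≤ 2 * (Real.log 2 / 256 / 8 * n) := by
    calc _ ≤ 2 * Real.sqrt n * Real.log n := mul_le_mul_of_nonneg_right h4 hlog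
      _ = 2 * (Real.sqrt n * Real.log n) := by ring
      _ ≤ _ := by linarith
  have h6 : ((n : ℝ) / 256 - 1) * Real.log 2 ≤ ((n / 16 / 16 : ℕ) : ℝ) * Real.log 2 :=
    mul_le_mul_of_nonneg_right h3 hl2.le
  refine le_trans ?_ h6
  have h7 : Real.log 2 * 10000 ≤ Real.log 2 * n := mul_le_mul_of_nonneg_left hn hl2.le
  linarith

/-- the main numerical estimate -/
lemma num3 : ∀ᶠ n : ℕ in atTop, (2 : ℝ) ^ n * (2 ^ (n.choose 2) *
    ∏ m ∈ Icc (n / 16) n, (2 * (n : ℝ) ^ (2 * Nat.sqrt n) / n.choose m)) ≤ (1 / 2) ^ (n + 1) := by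
  have hl2 : 0 < Real.log 2 := Real.log_pos (by norm_num)
  filter_upwards [sqrt_log_small (Real.log 2 / 128) (by positivity), eventually_ge_atTop 10000] with n h1 h2
  have hn : (10000 : ℝ) ≤ n := by exact_mod_cast h2
  have hn0 : (0 : ℝ) < n := by linarith
  have hpos : ∀ m ∈ Icc (n / 16) n, (0 : ℝ) < 2 * (n : ℝ) ^ (2 * Nat.sqrt n) / n.choose m := by
    intro m hm
    rw [mem_Icc] at hm
    have : (0 : ℝ) < n.choose m := by exact_mod_cast Nat.choose_pos hm.2
    positivity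
  rw [← Real.log_le_log_iff (by
      have := prod_pos hpos
      positivity) (by positivity), Real.log_mul (by positivity) (by
      have := prod_pos hpos
      positivity), Real.log_mul (by positivity) (prod_pos hpos).ne', Real.log_prod (fun m hm => (hpos m hm).ne'),
    Real.log_pow, Real.log_pow, Real.log_pow]
  have hlog : 0 ≤ Real.log n := Real.log_nonneg (by linarith)
  have h3 : ∑ m ∈ Icc (n / 16) n, Real.log (2 * (n : ℝ) ^ (2 * Nat.sqrt n) / n.choose m) ≤
      ((n : ℝ) + 1) * (Real.log 2 + 2 * (Real.log 2 / 128 * n)) - ∑ m ∈ Icc (n / 16) n, Real.log (n.choose m) := by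
    have h4 : ∀ m ∈ Icc (n / 16) n, Real.log (2 * (n : ℝ) ^ (2 * Nat.sqrt n) / n.choose m) ≤
        (Real.log 2 + 2 * (Real.log 2 / 128 * n)) - Real.log (n.choose m) := by
      intro m hm
      rw [mem_Icc] at hm
      have h5 : (0 : ℝ) < n.choose m := by exact_mod_cast Nat.choose_pos hm.2
      rw [Real.log_div (by positivity) h5.ne', Real.log_mul (by norm_num) (by positivity), Real.log_pow]
      have h6 := natsqrt_le n
      have h7 : ((2 * Nat.sqrt n : ℕ) : ℝ) * Real.log n ≤ 2 * (Real.log 2 / 128 * n) := by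
        push_cast
        calc 2 * (Nat.sqrt n : ℝ) * Real.log n ≤ 2 * Real.sqrt n * Real.log n := by gcongr
          _ = 2 * (Real.sqrt n * Real.log n) := by ring
          _ ≤ _ := by linarith
      linarith
    refine (sum_le_sum h4).trans ?_
    rw [sum_sub_distrib, sum_const, nsmul_eq_mul]
    have h5 : ((Icc (n / 16) n).card : ℝ) ≤ (n : ℝ) + 1 := by
      rw [Nat.card_Icc]
      have : n + 1 - n / 16 ≤ n + 1 := by omega
      exact_mod_cast this
    have h6 : 0 ≤ Real.log 2 + 2 * (Real.log 2 / 128 * n) := by positivity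
    have := mul_le_mul_of_nonneg_right h5 h6
    linarith
  have h4 := log_prod_Icc n
  have h5 := log_Pr n (by omega)
  have h6 : ((n.choose 2 : ℕ) : ℝ) = n * (n - 1) / 2 := Nat.cast_choose_two ℝ n
  have h7 : Real.log (1 / 2) = - Real.log 2 := by
    rw [one_div, Real.log_inv]
  rw [h7, h6]
  push_cast
  have key : (n : ℝ) + n * (n - 1) / 2 + (n + 1) * (1 + n / 64) + n * n / 16 + (n + 1) ≤
      ((n : ℝ) - 4) * (n - 5) / 2 * (5 / 4) := by
    nlinarith
  have key2 := mul_le_mul_of_nonneg_right key hl2.le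
  nlinarith

end Pool.Agent.V11271.HP
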