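import Pool.Agent.V11271.HP.Cnt2
import Pool.Agent.V11271.HP.Num

set_option autoImplicit false

/-!
# Anticoncentration at every level for a typical graph
-/

namespace Pool.Agent.V11271.HP

open Finset

lemma choose_succ_le (n k : ℕ) : n.choose (k + 1) ≤ n * n.choose k := by
  have h1 := Nat.choose_succ_right_eq n k
  calc n.choose (k + 1) ≤ n.choose (k + 1) * (k + 1) := Nat.le_mul_of_pos_right _ (by omega)
    _ = n.choose k * (n - k) := h1
    _ ≤ n.choose k * n := Nat.mul_le_mul_left _ (by omega)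
    _ = _ := mul_comm _ _

lemma nu_lt {n : ℕ} (hn : 1 ≤ n) {G : SimpleGraph (Fin n)} {ρ : ℕ} (hG : Typical ρ G) (hρ : ρ + 2 ≤ n)
    (h : 3 * n ^ 9 < 2 ^ (ρ / 16)) :
    nu ρ G + nu (ρ + 1) G * (ρ + 1).choose ρ + nu (ρ + 2) G * (ρ + 2).choose ρ < n.choose ρ := by
  obtain ⟨c, hc⟩ : ∃ c : ℝ, c = n.choose ρ := ⟨_, rfl⟩
  have hc0 : 0 < c := by rw [hc]; exact_mod_cast Nat.choose_pos (by omega)
  have hn1 : (1 : ℝ) ≤ n := by exact_mod_cast hn
  have hn0 : (0 : ℝ) < n := by linarith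
  have e1 : ((n.choose (ρ + 1) : ℕ) : ℝ) ≤ n * c := by rw [hc]; exact_mod_cast choose_succ_le n ρ
  have e2 : ((n.choose (ρ + 2) : ℕ) : ℝ) ≤ n * (n * c) := by
    have h1 : ((n.choose (ρ + 2) : ℕ) : ℝ) ≤ n * (n.choose (ρ + 1) : ℝ) := by
      exact_mod_cast choose_succ_le n (ρ + 1)
    exact h1.trans (mul_le_mul_of_nonneg_left e1 hn0.le)
  have f1 : (((ρ + 1).choose ρ : ℕ) : ℝ) ≤ n := by
    rw [Nat.choose_succ_self_right]
    exact_mod_cast (show ρ + 1 ≤ n by omega)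
  have f2 : (((ρ + 2).choose ρ : ℕ) : ℝ) ≤ n * n := by
    have h1 : (ρ + 2).choose ρ = (ρ + 2).choose 2 := by
      rw [← Nat.choose_symm (show ρ ≤ ρ + 2 by omega)]
      congr 1
      omega
    rw [h1]
    have h2 : (ρ + 2).choose 2 ≤ (ρ + 2) ^ 2 := Nat.choose_le_pow _ _
    have h3 : (ρ + 2).choose 2 ≤ n * n := by
      calc _ ≤ (ρ + 2) ^ 2 := h2
        _ = (ρ + 2) * (ρ + 2) := by ring
        _ ≤ n * n := Nat.mul_le_mul hρ hρ
    exact_mod_cast h3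
  have g0 := hG ρ le_rfl (by omega)
  have g1 := hG (ρ + 1) (by omega) (by omega)
  have g2 := hG (ρ + 2) (by omega) hρ
  obtain ⟨q, hq⟩ : ∃ q : ℝ, q = 2 ^ (ρ / 16) := ⟨_, rfl⟩
  have hq0 : 0 < q := by rw [hq]; positivity
  have hq1 : q ≤ 2 ^ ((ρ + 1) / 16) := by
    rw [hq]
    exact pow_le_pow_right₀ (by norm_num) (Nat.div_le_div_right (by omega))
  have hq2 : q ≤ 2 ^ ((ρ + 2) / 16) := by
    rw [hq]
    exact pow_le_pow_right₀ (by norm_num) (Nat.div_le_div_right (by omega))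
  have hq9 : 3 * (n : ℝ) ^ 9 < q := by rw [hq]; exact_mod_cast h
  rw [← hq, ← hc] at g0
  have g1' : (nu (ρ + 1) G : ℝ) * q ≤ (n : ℝ) ^ 5 * (n * c) := by
    calc _ ≤ (nu (ρ + 1) G : ℝ) * 2 ^ ((ρ + 1) / 16) := mul_le_mul_of_nonneg_left hq1 (Nat.cast_nonneg _)
      _ ≤ _ := g1
      _ ≤ _ := mul_le_mul_of_nonneg_left e1 (by positivity)
  have g2' : (nu (ρ + 2) G : ℝ) * q ≤ (n : ℝ) ^ 5 * (n * (n * c)) := by
    calc _ ≤ (nu (ρ + 2) G : ℝ) * 2 ^ ((ρ + 2) / 16) := mul_le_mul_of_nonneg_left hq2 (Nat.cast_nonneg _)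
      _ ≤ _ := g2
      _ ≤ _ := mul_le_mul_of_nonneg_left e2 (by positivity)
  have k0 : (nu ρ G : ℝ) * q ≤ (n : ℝ) ^ 9 * c := by
    refine g0.trans (mul_le_mul_of_nonneg_right ?_ hc0.le)
    exact pow_le_pow_right₀ hn1 (by norm_num)
  have k1 : (nu (ρ + 1) G : ℝ) * ((ρ + 1).choose ρ : ℕ) * q ≤ (n : ℝ) ^ 9 * c := by
    calc _ = ((nu (ρ + 1) G : ℝ) * q) * ((ρ + 1).choose ρ : ℕ) := by ring
      _ ≤ ((n : ℝ) ^ 5 * (n * c)) * n := by gcongr
      _ = (n : ℝ) ^ 7 * c := by ring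
      _ ≤ _ := mul_le_mul_of_nonneg_right (pow_le_pow_right₀ hn1 (by norm_num)) hc0.le
  have k2 : (nu (ρ + 2) G : ℝ) * ((ρ + 2).choose ρ : ℕ) * q ≤ (n : ℝ) ^ 9 * c := by
    calc _ = ((nu (ρ + 2) G : ℝ) * q) * ((ρ + 2).choose ρ : ℕ) := by ring
      _ ≤ ((n : ℝ) ^ 5 * (n * (n * c))) * (n * n) := by gcongr
      _ = (n : ℝ) ^ 9 * c := by ring
  have k3 : ((nu ρ G : ℝ) + (nu (ρ + 1) G : ℝ) * ((ρ + 1).choose ρ : ℕ) +
      (nu (ρ + 2) G : ℝ) * ((ρ + 2).choose ρ : ℕ)) * q < c * q := by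
    calc _ ≤ 3 * ((n : ℝ) ^ 9 * c) := by linarith
      _ = c * (3 * (n : ℝ) ^ 9) := by ring
      _ < c * q := mul_lt_mul_of_pos_left hq9 hc0
  have k4 := lt_of_mul_lt_mul_right k3 hq0.le
  rw [hc] at k4
  exact_mod_cast k4

/-- many supersets -/
lemma card_super {r m n : ℕ} (R : Sub r n) (hrm : r ≤ m) (hmn : m ≤ n) :
    n.choose m ≤ n ^ r * ((univ : Finset (Sub m n)).filter fun S => R.1 ⊆ S.1).card := by
  classical
  have h1 : ((univ \ R.1 : Finset (Fin n)).powersetCard (m - r)).card ≤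
      ((univ : Finset (Sub m n)).filter fun S => R.1 ⊆ S.1).card := by
    have hcard : ∀ X ∈ (univ \ R.1 : Finset (Fin n)).powersetCard (m - r), (R.1 ∪ X).card = m := by
      intro X hX
      rw [mem_powersetCard] at hX
      have hd : Disjoint R.1 X := by
        rw [disjoint_left]
        intro a ha haX
        exact (mem_sdiff.mp (hX.1 haX)).2 ha
      rw [card_union_of_disjoint hd, R.2, hX.2]
      omega
    refine card_le_card_of_injOn (fun X => if h : (R.1 ∪ X).card = m then (⟨R.1 ∪ X, h⟩ : Sub m n) else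
      ⟨(exists_super R hrm hmn).choose.1, (exists_super R hrm hmn).choose.2⟩) ?_ ?_
    · intro X hX
      rw [mem_coe, mem_filter]
      refine ⟨mem_univ _, ?_⟩
      simp only [hcard X hX, dif_pos]
      exact subset_union_left
    · intro X hX Y hY h
      simp only [hcard X hX, hcard Y hY, dif_pos] at h
      have h2 : R.1 ∪ X = R.1 ∪ Y := congrArg Subtype.val h
      rw [mem_coe, mem_powersetCard] at hX hY
      ext a
      constructor
      · intro ha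
        have h3 : a ∈ R.1 ∪ Y := by rw [← h2]; exact mem_union_right _ ha
        rcases mem_union.mp h3 with h4 | h4
        · exact absurd h4 (mem_sdiff.mp (hX.1 ha)).2
        · exact h4
      · intro ha
        have h3 : a ∈ R.1 ∪ X := by rw [h2]; exact mem_union_right _ ha
        rcases mem_union.mp h3 with h4 | h4
        · exact absurd h4 (mem_sdiff.mp (hY.1 ha)).2
        · exact h4
  rw [card_powersetCard, card_sdiff_of_subset (subset_univ _), card_univ, Fintype.card_fin, R.2] at h1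
  have h2 : n.choose m * m.choose r = n.choose r * (n - r).choose (m - r) := Nat.choose_mul hrm
  calc n.choose m ≤ n.choose m * m.choose r := Nat.le_mul_of_pos_right _ (Nat.choose_pos hrm)
    _ = n.choose r * (n - r).choose (m - r) := h2
    _ ≤ n ^ r * ((univ : Finset (Sub m n)).filter fun S => R.1 ⊆ S.1).card :=
        Nat.mul_le_mul (Nat.choose_le_pow _ _) h1

/-- the level estimate -/
theorem level {n : ℕ} (hn : 64 ≤ n) (c1 : 3 * n ^ 9 < 2 ^ (rho n / 16))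
    (c2 : 2 * (n : ℝ) ^ (Nat.sqrt n + 5) ≤ 2 ^ (n / 16 / 16)) {G G' : SimpleGraph (Fin n)}
    (hG : Typical (rho n) G) (hiso : ¬ Nonempty (G' ≃g G)) :
    ∀ m ∈ Icc (n / 16) n, ∀ x : ℤ,
      ∑ B : Finset (Ty m), Wl m B * (if (NN G B : ℤ) - NN G' B = x then 1 else 0) ≤
        2 * (n : ℝ) ^ (2 * Nat.sqrt n) / n.choose m := by
  classical
  intro m hm x
  rw [mem_Icc] at hm
  have hn1 : (1 : ℝ) ≤ n := by exact_mod_cast (show 1 ≤ n by omega)
  have hs : Nat.sqrt (n / 16) ≤ Nat.sqrt m := Nat.sqrt_le_sqrt hm.1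
  have hsm : Nat.sqrt m ≤ m := Nat.sqrt_le_self m
  have hsn : Nat.sqrt m ≤ Nat.sqrt n := Nat.sqrt_le_sqrt hm.2
  have hs2 : 2 ≤ Nat.sqrt (n / 16) := by
    rw [Nat.le_sqrt]
    omega
  have hρ : rho n + 2 = Nat.sqrt (n / 16) := by unfold rho; omega
  have hρm : rho n ≤ m := by omega
  obtain ⟨R0, hR0⟩ := missing (ρ := rho n) (by omega) (nu_lt (by omega) hG (by omega) c1) hiso
  obtain ⟨R, hR⟩ := exists_super R0 (show rho n + 2 ≤ Nat.sqrt m by omega) (by omega)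
  have hRocc : ¬ occ (typ G R) G' := fun h => hR0 (occ_sub hR h)
  obtain ⟨𝓢, h𝓢⟩ : ∃ 𝓢 : Finset (Sub m n), 𝓢 = univ.filter fun S => R.1 ⊆ S.1 ∧ UE G S.1 := ⟨_, rfl⟩
  have hcard : ((univ : Finset (Sub m n)).filter fun S => R.1 ⊆ S.1).card ≤ 𝓢.card + nu m G := by
    unfold nu
    rw [h𝓢]
    refine (card_le_card ?_).trans (card_union_le _ _)
    intro S hS
    rw [mem_filter] at hS
    rw [mem_union, mem_filter, mem_filter]
    by_cases h : UE G S.1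
    · exact Or.inl ⟨mem_univ _, hS.2, h⟩
    · exact Or.inr ⟨mem_univ _, h⟩
  have h1 := card_super R hsm hm.2
  obtain ⟨c, hc⟩ : ∃ c : ℝ, c = n.choose m := ⟨_, rfl⟩
  have hc0 : 0 < c := by rw [hc]; exact_mod_cast Nat.choose_pos hm.2
  obtain ⟨q, hq⟩ : ∃ q : ℝ, q = (n : ℝ) ^ Nat.sqrt n := ⟨_, rfl⟩
  have hq1 : 1 ≤ q := by rw [hq]; exact one_le_pow₀ hn1
  have hq0 : 0 < q := by linarith
  have h2 : c ≤ q * (𝓢.card + nu m G) := by
    have h3 : c ≤ (n : ℝ) ^ Nat.sqrt m * (((univ : Finset (Sub m n)).filter fun S => R.1 ⊆ S.1).card : ℝ) := by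
      rw [hc]
      exact_mod_cast h1
    refine h3.trans ?_
    have h4 : (n : ℝ) ^ Nat.sqrt m ≤ q := by rw [hq]; exact pow_le_pow_right₀ hn1 hsn
    have h5 : (((univ : Finset (Sub m n)).filter fun S => R.1 ⊆ S.1).card : ℝ) ≤ (𝓢.card : ℝ) + nu m G := by
      exact_mod_cast hcard
    gcongr
  have h3 : q * nu m G ≤ c / 2 := by
    have h4 := hG m hρm hm.2
    rw [← hc] at h4
    have h5 : 2 * (n : ℝ) ^ (Nat.sqrt n + 5) ≤ 2 ^ (m / 16) :=
      c2.trans (pow_le_pow_right₀ (by norm_num) (Nat.div_le_div_right hm.1))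
    have h6 : 2 * (q * (n : ℝ) ^ 5) ≤ 2 ^ (m / 16) := by
      rw [hq, ← pow_add]
      exact h5
    have h7 : (0 : ℝ) < (n : ℝ) ^ 5 := by positivity
    refine le_of_mul_le_mul_right ?_ h7
    calc q * nu m G * (n : ℝ) ^ 5 = (nu m G : ℝ) * (2 * (q * (n : ℝ) ^ 5)) / 2 := by ring
      _ ≤ (nu m G : ℝ) * 2 ^ (m / 16) / 2 := by gcongr
      _ ≤ ((n : ℝ) ^ 5 * c) / 2 := by gcongr
      _ = _ := by ring
  have h4 : c / 2 ≤ q * 𝓢.card := by
    have : q * ((𝓢.card : ℝ) + nu m G) = q * 𝓢.card + q * nu m G := by ring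
    rw [this] at h2
    linarith
  have h5 : (0 : ℝ) < 𝓢.card := by
    by_contra hcon
    have h6 : (𝓢.card : ℝ) = 0 := le_antisymm (not_lt.mp hcon) (Nat.cast_nonneg _)
    rw [h6, mul_zero] at h4
    linarith
  have h6 : 𝓢.Nonempty := card_pos.mp (by exact_mod_cast h5)
  refine (Wl_anti G G' R hRocc 𝓢 h6 (fun S hS => by rw [h𝓢, mem_filter] at hS; exact hS.2) x).trans ?_
  rw [← hc, div_le_div_iff₀ h5 hc0]
  have h7 : ((m.choose (Nat.sqrt m) : ℕ) : ℝ) ≤ q := by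
    have h8 : m.choose (Nat.sqrt m) ≤ n ^ Nat.sqrt n := by
      calc m.choose (Nat.sqrt m) ≤ m ^ Nat.sqrt m := Nat.choose_le_pow _ _
        _ ≤ n ^ Nat.sqrt m := Nat.pow_le_pow_left hm.2 _
        _ ≤ n ^ Nat.sqrt n := Nat.pow_le_pow_right (by omega) hsn
    rw [hq]
    exact_mod_cast h8
  have h8 : (n : ℝ) ^ (2 * Nat.sqrt n) = q * q := by rw [hq, ← pow_add]; congr 1; omega
  rw [h8]
  calc ((m.choose (Nat.sqrt m) : ℕ) : ℝ) * c ≤ q * c := by gcongr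
    _ = q * (2 * (c / 2)) := by ring
    _ ≤ q * (2 * (q * 𝓢.card)) := by gcongr
    _ = _ := by ring

end Pool.Agent.V11271.HP
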