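import Pool.Agent.V11271.HP.Lev
import Pool.Agent.V11271.HP.Har
import Pool.Agent.V11271.HP.Exp

set_option autoImplicit false

/-!
# A property with an almost complete Harary polynomial
-/

namespace Pool.Agent.V11271.HP

open Finset Filter Topology

/-- the numerical conditions -/
def Good (n : ℕ) : Prop :=
  64 ≤ n ∧ 3 * n ^ 9 < 2 ^ (rho n / 16) ∧ 2 * (n : ℝ) ^ (Nat.sqrt n + 5) ≤ 2 ^ (n / 16 / 16) ∧
    (2 : ℝ) ^ n * (2 ^ (n.choose 2) * ∏ m ∈ Icc (n / 16) n, (2 * (n : ℝ) ^ (2 * Nat.sqrt n) / n.choose m)) ≤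
      (1 / 2) ^ (n + 1)

lemma eventually_Good : ∀ᶠ n : ℕ in atTop, Good n := by
  filter_upwards [eventually_ge_atTop 64, num1, num2, num3] with n h1 h2 h3 h4
  exact ⟨h1, h2, h3, h4⟩

lemma hh_congr {P P' : ∀ m, Finset (Ty m)} {n : ℕ} (h : ∀ m, m ≤ n → P m = P' m) (G : SimpleGraph (Fin n)) (k : ℕ) :
    hh P G k = hh P' G k := by
  classical
  unfold hh
  congr 1
  ext π
  simp only [mem_filter, mem_univ, true_and, and_congr_right_iff]
  intro _
  refine forall₂_congr fun B _ => ?_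
  unfold blockOK
  rw [h B.card (by
    have := card_le_card (subset_univ B)
    rwa [card_univ, Fintype.card_fin] at this)]

open Classical in
/-- the typical graphs with a mate -/
noncomputable def bad (P : ∀ m, Finset (Ty m)) (n : ℕ) : Finset (SimpleGraph (Fin n)) :=
  univ.filter fun G => Typical (rho n) G ∧ ∃ G' : SimpleGraph (Fin n), ¬ Nonempty (G' ≃g G) ∧
    ∀ k, hh P G' k = hh P G k

open Classical in
/-- the counting function -/
noncomputable def FF (n : ℕ) (P : ∀ m, Finset (Ty m)) : ℝ :=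
  ∑ p ∈ (univ : Finset (SimpleGraph (Fin n) × SimpleGraph (Fin n))).filter fun p =>
    Typical (rho n) p.1 ∧ ¬ Nonempty (p.2 ≃g p.1),
    ∏ m ∈ Icc (n / 16) n, if ((NN p.1 (P m) : ℤ) - NN p.2 (P m)) = (lo P p.2 m : ℤ) - lo P p.1 m then (1 : ℝ) else 0

lemma FF_nonneg (n : ℕ) (P : ∀ m, Finset (Ty m)) : 0 ≤ FF n P := by
  unfold FF
  refine sum_nonneg fun p _ => prod_nonneg fun m _ => ?_
  split_ifs <;> norm_num

lemma bad_le (P : ∀ m, Finset (Ty m)) {n : ℕ} (hn : 64 ≤ n) : ((bad P n).card : ℝ) ≤ FF n P := by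
  classical
  have h1 : ∀ G ∈ bad P n, ∃ G' : SimpleGraph (Fin n), ¬ Nonempty (G' ≃g G) ∧ ∀ k, hh P G' k = hh P G k := by
    intro G hG
    unfold bad at hG
    exact (mem_filter.mp hG).2.2
  have h2 : ∀ G : SimpleGraph (Fin n), ∃ G' : SimpleGraph (Fin n), G ∈ bad P n → (¬ Nonempty (G' ≃g G) ∧
      ∀ k, hh P G' k = hh P G k) := by
    intro G
    by_cases hG : G ∈ bad P n
    · obtain ⟨G', h⟩ := h1 G hG
      exact ⟨G', fun _ => h⟩
    · exact ⟨G, fun h => absurd h hG⟩
  choose mate hmate using h2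
  have h3 : (((bad P n).image fun G => (G, mate G)).card : ℝ) = (bad P n).card := by
    rw [card_image_of_injective _ fun a b h => (Prod.mk.inj h).1]
  rw [← h3]
  unfold FF
  rw [card_eq_sum_ones]
  push_cast
  have h4 : ((bad P n).image fun G => (G, mate G)) ⊆
      (univ : Finset (SimpleGraph (Fin n) × SimpleGraph (Fin n))).filter fun p =>
        Typical (rho n) p.1 ∧ ¬ Nonempty (p.2 ≃g p.1) := by
    intro p hp
    obtain ⟨G, hG, rfl⟩ := mem_image.mp hp
    rw [mem_filter]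
    refine ⟨mem_univ _, ?_, (hmate G hG).1⟩
    unfold bad at hG
    exact (mem_filter.mp hG).2.1
  refine le_trans (sum_le_sum fun p hp => ?_) (sum_le_sum_of_subset_of_nonneg h4 fun p _ _ =>
    prod_nonneg fun m _ => by split_ifs <;> norm_num)
  obtain ⟨G, hG, rfl⟩ := mem_image.mp hp
  refine le_of_eq (prod_eq_one fun m hm => ?_).symm
  rw [mem_Icc] at hm
  rw [if_pos]
  have h5 := (hmate G hG).2 (n - m + 1)
  rw [hh_eq P (mate G) (by omega) hm.2, hh_eq P G (by omega) hm.2] at h5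
  simp only
  omega

lemma Wl_nonneg (m : ℕ) (B : Finset (Ty m)) : 0 ≤ Wl m B := W_nonneg _ _

lemma Wl_total (m : ℕ) : ∑ B : Finset (Ty m), Wl m B = 1 := W_total _

lemma Eit_FF {n N : ℕ} (hn : Good n) (hN : n < N) (P : ∀ m, Finset (Ty m)) :
    Eit Wl N (FF n) P ≤ 2 ^ (n.choose 2) * (2 ^ (n.choose 2) *
      ∏ m ∈ Icc (n / 16) n, (2 * (n : ℝ) ^ (2 * Nat.sqrt n) / n.choose m)) := by
  classical
  obtain ⟨c0, c1, c2, -⟩ := hn
  obtain ⟨Prd, hPr⟩ : ∃ Prd : ℝ, Prd = ∏ m ∈ Icc (n / 16) n, (2 * (n : ℝ) ^ (2 * Nat.sqrt n) / n.choose m) := ⟨_, rfl⟩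
  have hPi0 : 0 ≤ Prd := by rw [hPr]; exact prod_nonneg fun m _ => by positivity
  unfold FF
  rw [Eit_sum]
  rw [← hPr]
  calc _ ≤ ∑ p ∈ (univ : Finset (SimpleGraph (Fin n) × SimpleGraph (Fin n))).filter fun p =>
        Typical (rho n) p.1 ∧ ¬ Nonempty (p.2 ≃g p.1), Prd := by
        refine sum_le_sum fun p hp => ?_
        rw [mem_filter] at hp
        rw [hPr]
        refine Eit_prod Wl_nonneg Wl_total (fun m B => (NN p.1 B : ℤ) - NN p.2 B)
          (fun m P => (lo P p.2 m : ℤ) - lo P p.1 m) ?_ _ N _ ?_ ?_ P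
        · intro m P m' B hmm
          rw [lo_update P p.2 B hmm, lo_update P p.1 B hmm]
        · intro m hm
          rw [mem_Icc] at hm
          omega
        · exact level c0 c1 c2 hp.2.1 hp.2.2
    _ = (((univ : Finset (SimpleGraph (Fin n) × SimpleGraph (Fin n))).filter fun p =>
        Typical (rho n) p.1 ∧ ¬ Nonempty (p.2 ≃g p.1)).card : ℝ) * Prd := by rw [sum_const, nsmul_eq_mul]
    _ ≤ (2 ^ (n.choose 2) * 2 ^ (n.choose 2)) * Prd := by
        refine mul_le_mul_of_nonneg_right ?_ hPi0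
        have h1 := card_filter_le (univ : Finset (SimpleGraph (Fin n) × SimpleGraph (Fin n))) fun p =>
          Typical (rho n) p.1 ∧ ¬ Nonempty (p.2 ≃g p.1)
        rw [card_univ, Fintype.card_prod, card_graphs] at h1
        exact_mod_cast h1
    _ = _ := by ring

/-- properties that are good for all `n < N` -/
lemma exists_finite (N : ℕ) : ∃ P : ∀ m, Finset (Ty m), ∀ n, n < N → Good n →
    ((bad P n).card : ℝ) ≤ 2 ^ (n.choose 2) / 2 ^ n := by
  classical
  obtain ⟨Φ, hΦ⟩ : ∃ Φ : (∀ m, Finset (Ty m)) → ℝ, Φ = fun P =>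
    ∑ n ∈ (range N).filter Good, ((2 : ℝ) ^ n / 2 ^ (n.choose 2)) * FF n P := ⟨_, rfl⟩
  obtain ⟨P, hP⟩ := Eit_exists Wl_nonneg Wl_total N Φ fun _ => ∅
  have h1 : Eit Wl N Φ (fun _ => ∅) < 1 := by
    rw [hΦ, Eit_sum]
    simp only [Eit_smul]
    calc _ ≤ ∑ n ∈ (range N).filter Good, (1 / 2 : ℝ) ^ (n + 1) := by
          refine sum_le_sum fun n hn => ?_
          rw [mem_filter, mem_range] at hn
          have h2 := Eit_FF hn.2 hn.1 fun _ => ∅
          refine le_trans (mul_le_mul_of_nonneg_left h2 (by positivity)) ?_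
          refine le_trans (le_of_eq ?_) hn.2.2.2.2
          field_simp
      _ ≤ ∑ n ∈ range N, (1 / 2 : ℝ) ^ (n + 1) :=
          sum_le_sum_of_subset_of_nonneg (filter_subset _ _) fun _ _ _ => by positivity
      _ < 1 := by
          have h3 : ∀ N : ℕ, ∑ n ∈ range N, (1 / 2 : ℝ) ^ (n + 1) = 1 - (1 / 2) ^ N := by
            intro N
            induction N with
            | zero => simp
            | succ k ih =>
              rw [sum_range_succ, ih, pow_succ]
              ring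
          rw [h3]
          have : (0 : ℝ) < (1 / 2) ^ N := by positivity
          linarith
  refine ⟨P, fun n hn hG => ?_⟩
  have h2 : ((2 : ℝ) ^ n / 2 ^ (n.choose 2)) * FF n P ≤ Φ P := by
    rw [hΦ]
    exact single_le_sum (f := fun n => ((2 : ℝ) ^ n / 2 ^ (n.choose 2)) * FF n P)
      (fun i _ => mul_nonneg (by positivity) (FF_nonneg i P)) (mem_filter.mpr ⟨mem_range.mpr hn, hG⟩)
  have h3 : ((2 : ℝ) ^ n / 2 ^ (n.choose 2)) * FF n P ≤ 1 := by linarith
  refine (bad_le P hG.1).trans ?_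
  rw [le_div_iff₀ (by positivity)]
  rw [div_mul_eq_mul_div, div_le_one (by positivity)] at h3
  linarith

/-- a property that is good for all `n` -/
theorem exists_infinite : ∃ P : ∀ m, Finset (Ty m), ∀ n, Good n →
    ((bad P n).card : ℝ) ≤ 2 ^ (n.choose 2) / 2 ^ n := by
  classical
  choose P hP using exists_finite
  obtain ⟨Q, hQ⟩ : ∃ Q : ∀ m, Finset (Ty m), ∀ m, Q m = univ.filter fun H => ∀ᶠ N in (hyperfilter ℕ : Filter ℕ), H ∈ P N m :=
    ⟨fun m => univ.filter fun H => ∀ᶠ N in (hyperfilter ℕ : Filter ℕ), H ∈ P N m, fun _ => rfl⟩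
  refine ⟨Q, fun n hn => ?_⟩
  have h1 : ∀ m, ∀ᶠ N in (hyperfilter ℕ : Filter ℕ), P N m = Q m := by
    intro m
    have h2 : ∀ H : Ty m, ∀ᶠ N in (hyperfilter ℕ : Filter ℕ), (H ∈ P N m ↔ H ∈ Q m) := by
      intro H
      by_cases hH : H ∈ Q m
      · have h3 := hH
        rw [hQ, mem_filter] at h3
        filter_upwards [h3.2] with N hN
        exact ⟨fun _ => hH, fun _ => hN⟩
      · have h3 : ¬ ∀ᶠ N in (hyperfilter ℕ : Filter ℕ), H ∈ P N m := by
          intro h
          exact hH (by rw [hQ, mem_filter]; exact ⟨mem_univ _, h⟩)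
        rw [← Ultrafilter.eventually_not] at h3
        filter_upwards [h3] with N hN
        exact ⟨fun h => absurd h hN, fun h => absurd h hH⟩
    have h4 := Filter.eventually_all.mpr h2
    filter_upwards [h4] with N hN
    ext H
    exact hN H
  have h2 : ∀ᶠ N in (hyperfilter ℕ : Filter ℕ), ∀ m ∈ range (n + 1), P N m = Q m :=
    (Filter.eventually_all_finset _).mpr fun m _ => h1 m
  have h3 : ∀ᶠ N in (hyperfilter ℕ : Filter ℕ), n < N := by
    have : (hyperfilter ℕ : Filter ℕ) ≤ atTop := by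
      rw [← Nat.cofinite_eq_atTop]
      exact hyperfilter_le_cofinite
    exact this (eventually_gt_atTop n)
  obtain ⟨N, h4, h5⟩ := (h2.and h3).exists
  have h6 : bad Q n = bad (P N) n := by
    unfold bad
    have h7 : ∀ m, m ≤ n → Q m = P N m := fun m hm => (h4 m (mem_range.mpr (by omega))).symm
    congr 1
    funext G
    simp only [hh_congr h7]
  rw [h6]
  exact hP N n h5 hn

end Pool.Agent.V11271.HP
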