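import Pool.Agent.V11271.HP.Typ

set_option autoImplicit false

/-!
# A typical graph has a small subgraph missing in a given non-isomorphic graph
-/

namespace Pool.Agent.V11271.HP

open Finset

lemma Emb.mono {α : Type} {G G' : SimpleGraph α} {S S' : Finset α} {φ : α → α} (h : Emb G G' S φ) (hS : S' ⊆ S) :
    Emb G G' S' φ :=
  ⟨fun _ hx _ hy => h.1 (hS hx) (hS hy), fun u hu v hv => h.2 u (hS hu) v (hS hv)⟩

lemma Emb.uniq {α : Type} [DecidableEq α] {G' G : SimpleGraph α} {C : Finset α} {a φ : α → α}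
    (h1 : Emb G' G C a) (h2 : UE G (C.image a)) (h3 : Emb G' G C φ) : ∀ x ∈ C, φ x = a x := by
  intro x hx
  obtain ⟨θ, hθ⟩ : ∃ θ : α → α, ∀ y ∈ C, θ (a y) = φ y := by
    have : Nonempty α := ⟨x⟩
    refine ⟨fun z => φ (Function.invFunOn a C z), fun y hy => ?_⟩
    have h5 := h1.1.leftInvOn_invFunOn hy
    simp only
    rw [h5]
  have h4 : Emb G G (C.image a) θ := by
    constructor
    · intro u hu v hv huv
      rw [mem_coe, mem_image] at hu hv
      obtain ⟨u, hu, rfl⟩ := hu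
      obtain ⟨v, hv, rfl⟩ := hv
      rw [hθ u hu, hθ v hv] at huv
      rw [h3.1 hu hv huv]
    · intro u hu v hv
      rw [mem_image] at hu hv
      obtain ⟨u, hu, rfl⟩ := hu
      obtain ⟨v, hv, rfl⟩ := hv
      rw [hθ u hu, hθ v hv, ← h1.2 u hu v hv, ← h3.2 u hu v hv]
  have h5 := h2 θ h4 (a x) (mem_image_of_mem _ hx)
  rw [hθ x hx] at h5
  exact h5

/-- gluing partial embeddings around a core -/
theorem glue {α : Type} [DecidableEq α] [Finite α] {G' G : SimpleGraph α} {C : Finset α}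
    (h0 : ∃ a, Emb G' G C a ∧ UE G (C.image a))
    (h1 : ∀ u, u ∉ C → ∃ b, Emb G' G (insert u C) b ∧ UE G ((insert u C).image b))
    (h2 : ∀ u v, u ∉ C → v ∉ C → u ≠ v → ∃ c, Emb G' G (insert u (insert v C)) c) :
    Nonempty (G' ≃g G) := by
  classical
  obtain ⟨a, ha, haU⟩ := h0
  have h1' : ∀ u, ∃ b : α → α, u ∉ C → Emb G' G (insert u C) b ∧ UE G ((insert u C).image b) := by
    intro u
    by_cases hu : u ∈ C
    · exact ⟨id, fun h => absurd hu h⟩
    · obtain ⟨b, hb⟩ := h1 u hu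
      exact ⟨b, fun _ => hb⟩
  choose b hb using h1'
  obtain ⟨f, hf⟩ : ∃ f : α → α, f = fun x => if x ∈ C then a x else b x x := ⟨_, rfl⟩
  have hfC : ∀ x ∈ C, f x = a x := fun x hx => by rw [hf]; simp [hx]
  have hfn : ∀ x, x ∉ C → f x = b x x := fun x hx => by rw [hf]; simp [hx]
  have key : ∀ x y, x ≠ y → ∃ (φ : α → α) (X : Finset α), Emb G' G X φ ∧ x ∈ X ∧ y ∈ X ∧ φ x = f x ∧ φ y = f y := by
    intro x y hxy
    by_cases hx : x ∈ C
    · by_cases hy : y ∈ C
      · exact ⟨a, C, ha, hx, hy, (hfC x hx).symm, (hfC y hy).symm⟩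
      · have h3 := (hb y hy).1
        have h4 := Emb.uniq ha haU (h3.mono (subset_insert y C))
        refine ⟨b y, insert y C, h3, mem_insert_of_mem hx, mem_insert_self y C, ?_, (hfn y hy).symm⟩
        rw [hfC x hx, h4 x hx]
    · by_cases hy : y ∈ C
      · have h3 := (hb x hx).1
        have h4 := Emb.uniq ha haU (h3.mono (subset_insert x C))
        refine ⟨b x, insert x C, h3, mem_insert_self x C, mem_insert_of_mem hy, (hfn x hx).symm, ?_⟩
        rw [hfC y hy, h4 y hy]
      · obtain ⟨c, hc⟩ := h2 x y hx hy hxy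
        have hxX : x ∈ insert x (insert y C) := mem_insert_self _ _
        have hyX : y ∈ insert x (insert y C) := mem_insert_of_mem (mem_insert_self _ _)
        refine ⟨c, _, hc, hxX, hyX, ?_, ?_⟩
        · have h3 : insert x C ⊆ insert x (insert y C) := insert_subset_insert x (subset_insert y C)
          rw [Emb.uniq (hb x hx).1 (hb x hx).2 (hc.mono h3) x (mem_insert_self x C), hfn x hx]
        · have h3 : insert y C ⊆ insert x (insert y C) := subset_insert x _
          rw [Emb.uniq (hb y hy).1 (hb y hy).2 (hc.mono h3) y (mem_insert_self y C), hfn y hy]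
  have hinj : Function.Injective f := by
    intro x y hxy
    by_contra hne
    obtain ⟨φ, X, hφ, hx, hy, e1, e2⟩ := key x y hne
    rw [← e1, ← e2] at hxy
    exact hne (hφ.1 hx hy hxy)
  have hb2 : Function.Bijective f := Finite.injective_iff_bijective.mp hinj
  refine ⟨⟨Equiv.ofBijective f hb2, ?_⟩⟩
  intro x y
  rw [Equiv.ofBijective_apply, Equiv.ofBijective_apply]
  by_cases hne : x = y
  · subst hne
    simp
  · obtain ⟨φ, X, hφ, hx, hy, e1, e2⟩ := key x y hne
    rw [← e1, ← e2]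
    exact (hφ.2 x hx y hy).symm

open Classical in
/-- the number of subsets that are not uniquely embedded -/
noncomputable def nu (j : ℕ) {n : ℕ} (G : SimpleGraph (Fin n)) : ℕ :=
  ((univ : Finset (Sub j n)).filter fun S => ¬ UE G S.1).card

lemma exists_super {j r n : ℕ} (C : Sub j n) (h1 : j ≤ r) (h2 : r ≤ n) : ∃ R : Sub r n, C.1 ⊆ R.1 := by
  obtain ⟨R, h3, _, h4⟩ := Finset.exists_subsuperset_card_eq (n := r) (subset_univ C.1) (by rw [C.2]; exact h1)
    (by rw [card_univ, Fintype.card_fin]; exact h2)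
  exact ⟨⟨R, h4⟩, h3⟩

lemma occ_sub {j r n : ℕ} {G G' : SimpleGraph (Fin n)} {C : Sub j n} {R : Sub r n} (h : C.1 ⊆ R.1)
    (hR : occ (typ G R) G') : occ (typ G C) G' := by
  obtain ⟨i, hi⟩ := occ_out G C R h
  exact occ_trans (hi ▸ occ_typ _ i) hR

open Classical in
/-- subsets of `G'` whose type is that of a uniquely embedded subset of `G` -/
noncomputable def badSet (j : ℕ) {n : ℕ} (G G' : SimpleGraph (Fin n)) : Finset (Sub j n) :=
  univ.filter fun C' => ¬ ∃ C : Sub j n, UE G C.1 ∧ typ G C = typ G' C'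

lemma card_badSet {j r n : ℕ} {G G' : SimpleGraph (Fin n)} (hr : r ≤ n) (hjr : j ≤ r)
    (h : ∀ R : Sub r n, occ (typ G R) G') : (badSet j G G').card ≤ nu j G := by
  classical
  have h1 : ∀ C : Sub j n, ∃ C' : Sub j n, typ G' C' = typ G C := by
    intro C
    obtain ⟨R, hR⟩ := exists_super C hjr hr
    exact occ_iff.mp (occ_sub hR (h R))
  choose c hc using h1
  have h2 : ((univ : Finset (Sub j n)).filter fun S => UE G S.1).card ≤
      ((univ : Finset (Sub j n)).filter fun C' => ∃ C : Sub j n, UE G C.1 ∧ typ G C = typ G' C').card := by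
    refine card_le_card_of_injOn c ?_ ?_
    · intro C hC
      rw [mem_coe, mem_filter] at hC ⊢
      exact ⟨mem_univ _, C, hC.2, (hc C).symm⟩
    · intro C hC C2 _ h3
      rw [mem_coe, mem_filter] at hC
      refine UE_inj hC.2 ?_
      rw [← hc C, ← hc C2, h3]
  have h3 := card_filter_add_card_filter_not (s := (univ : Finset (Sub j n))) (fun S => UE G S.1)
  have h4 := card_filter_add_card_filter_not (s := (univ : Finset (Sub j n)))
    (fun C' => ∃ C : Sub j n, UE G C.1 ∧ typ G C = typ G' C')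
  unfold badSet nu
  omega

lemma card_sub_of {ρ j n : ℕ} (Bad : Finset (Sub j n)) (A : Finset (Sub ρ n))
    (hA : ∀ C ∈ A, ∃ X ∈ Bad, C.1 ⊆ X.1) : A.card ≤ Bad.card * j.choose ρ := by
  classical
  have h1 : A ⊆ Bad.biUnion fun X => univ.filter fun C : Sub ρ n => C.1 ⊆ X.1 := by
    intro C hC
    obtain ⟨X, hX, hCX⟩ := hA C hC
    rw [mem_biUnion]
    exact ⟨X, hX, mem_filter.mpr ⟨mem_univ _, hCX⟩⟩
  refine (card_le_card h1).trans (card_biUnion_le_card_mul _ _ _ fun X _ => ?_)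
  have h2 : (((univ : Finset (Sub ρ n)).filter fun C : Sub ρ n => C.1 ⊆ X.1)).card ≤ (X.1.powersetCard ρ).card := by
    refine card_le_card_of_injOn Subtype.val ?_ fun _ _ _ _ h => Subtype.ext h
    intro C hC
    rw [mem_coe, mem_filter] at hC
    rw [mem_coe, mem_powersetCard]
    exact ⟨hC.2, C.2⟩
  rw [card_powersetCard, X.2] at h2
  exact h2

/-- from a type match to an embedding -/
lemma emb_of_typ {j n : ℕ} {G G' : SimpleGraph (Fin n)} {C' C : Sub j n} (h : typ G C = typ G' C') :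
    ∃ a, Emb G' G C'.1 a ∧ C'.1.image a = C.1 := by
  obtain ⟨a, h1, h2⟩ := exists_Emb h.symm
  refine ⟨a, h1, ?_⟩
  refine eq_of_subset_of_card_le ?_ ?_
  · intro x hx
    obtain ⟨y, hy, rfl⟩ := mem_image.mp hx
    exact h2 y hy
  · rw [card_image_of_injOn h1.1, C.2, C'.2]

/-- the reconstruction lemma -/
theorem missing {ρ n : ℕ} {G G' : SimpleGraph (Fin n)} (hρ : ρ + 2 ≤ n)
    (hnu : nu ρ G + nu (ρ + 1) G * (ρ + 1).choose ρ + nu (ρ + 2) G * (ρ + 2).choose ρ < n.choose ρ)
    (hG : ¬ Nonempty (G' ≃g G)) : ∃ R : Sub (ρ + 2) n, ¬ occ (typ G R) G' := by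
  classical
  by_contra hcon
  push Not at hcon
  apply hG
  have b0 := card_badSet (j := ρ) hρ (by omega) hcon
  have b1 := card_badSet (j := ρ + 1) hρ (by omega) hcon
  have b2 := card_badSet (j := ρ + 2) hρ le_rfl hcon
  -- the bad cores
  obtain ⟨A1, hA1⟩ : ∃ A1 : Finset (Sub ρ n), A1 = univ.filter fun C => ∃ X ∈ badSet (ρ + 1) G G', C.1 ⊆ X.1 :=
    ⟨_, rfl⟩
  obtain ⟨A2, hA2⟩ : ∃ A2 : Finset (Sub ρ n), A2 = univ.filter fun C => ∃ X ∈ badSet (ρ + 2) G G', C.1 ⊆ X.1 :=
    ⟨_, rfl⟩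
  have c1 : A1.card ≤ (badSet (ρ + 1) G G').card * (ρ + 1).choose ρ :=
    card_sub_of _ _ fun C hC => by rw [hA1] at hC; exact (mem_filter.mp hC).2
  have c2 : A2.card ≤ (badSet (ρ + 2) G G').card * (ρ + 2).choose ρ :=
    card_sub_of _ _ fun C hC => by rw [hA2] at hC; exact (mem_filter.mp hC).2
  have c3 : (badSet ρ G G' ∪ A1 ∪ A2).card < (univ : Finset (Sub ρ n)).card := by
    rw [card_univ, card_Sub]
    have d1 := card_union_le (badSet ρ G G' ∪ A1) A2
    have d2 := card_union_le (badSet ρ G G') A1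
    have d3 := Nat.mul_le_mul_right ((ρ + 1).choose ρ) b1
    have d4 := Nat.mul_le_mul_right ((ρ + 2).choose ρ) b2
    omega
  obtain ⟨C, -, hC⟩ := Finset.exists_mem_notMem_of_card_lt_card c3
  rw [mem_union, mem_union] at hC
  push Not at hC
  obtain ⟨⟨hC0, hC1⟩, hC2⟩ := hC
  rw [hA1, mem_filter] at hC1
  rw [hA2, mem_filter] at hC2
  push Not at hC1 hC2
  have good : ∀ {j : ℕ} {X : Sub j n}, X ∉ badSet j G G' → ∃ a, Emb G' G X.1 a ∧ UE G (X.1.image a) := by
    intro j X hX
    unfold badSet at hX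
    rw [mem_filter] at hX
    push Not at hX
    obtain ⟨Y, hY1, hY2⟩ := hX (mem_univ _)
    obtain ⟨a, ha1, ha2⟩ := emb_of_typ hY2
    exact ⟨a, ha1, by rw [ha2]; exact hY1⟩
  refine glue (C := C.1) (good hC0) ?_ ?_
  · intro u hu
    have h3 : (insert u C.1).card = ρ + 1 := by rw [card_insert_of_notMem hu, C.2]
    exact good (X := ⟨insert u C.1, h3⟩) fun h => hC1 (mem_univ _) ⟨insert u C.1, h3⟩ h (subset_insert u C.1)
  · intro u v hu hv huv
    have h3 : (insert u (insert v C.1)).card = ρ + 2 := by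
      rw [card_insert_of_notMem, card_insert_of_notMem hv, C.2]
      rw [mem_insert]
      push Not
      exact ⟨huv, hu⟩
    obtain ⟨c, hc, _⟩ := good (X := ⟨insert u (insert v C.1), h3⟩) fun h =>
      hC2 (mem_univ _) ⟨insert u (insert v C.1), h3⟩ h ((subset_insert v C.1).trans (subset_insert u _))
    exact ⟨c, hc⟩

end Pool.Agent.V11271.HP
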