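import Pool.Agent.V11271.HP.Wt

set_option autoImplicit false

/-!
# The random subset with random classes
-/

namespace Pool.Agent.V11271.HP

open Finset

variable {T I Kt : Type*} [DecidableEq T] [Fintype T] [DecidableEq I] [Fintype I]

/-- sum over the images of `update · H a` -/
lemma sum_update (H : T) (a : I) (F : (T → I) → ℝ) :
    ∑ i : T → I, F (Function.update i H a) = Fintype.card I * ∑ i : T → I with i H = a, F i := by
  have h1 : ∀ i ∈ (univ : Finset (T → I)), Function.update i H a ∈ univ.filter fun i : T → I => i H = a := by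
    intro i _
    simp
  rw [← sum_fiberwise_of_maps_to h1, mul_sum]
  refine sum_congr rfl fun i' hi' => ?_
  rw [mem_filter] at hi'
  have h2 : ∀ i ∈ (univ : Finset (T → I)).filter (fun i => Function.update i H a = i'),
      F (Function.update i H a) = F i' := by
    intro i hi
    rw [(mem_filter.mp hi).2]
  rw [sum_congr rfl h2, sum_const, nsmul_eq_mul]
  congr 2
  have h3 : (univ : Finset (T → I)).filter (fun i => Function.update i H a = i') =
      univ.image fun b : I => Function.update i' H b := by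
    ext i
    simp only [mem_filter, mem_univ, true_and, mem_image]
    constructor
    · intro h
      refine ⟨i H, ?_⟩
      rw [← h]
      simp
    · rintro ⟨b, rfl⟩
      rw [Function.update_idem]
      rw [← hi'.2]
      simp
  rw [h3, card_image_of_injective, card_univ]
  intro b b' hb
  have := congrFun hb H
  simpa using this

/-- the number of hits -/
def hits (𝓗 : Finset T) (j i : T → I) : ℕ := (𝓗.filter fun H => i H = j H).card

lemma hits_bound (𝓗 : Finset T) (j : T → I) :
    (𝓗.card : ℝ) * ∑ i : T → I, ((hits 𝓗 j i + 1 : ℕ) : ℝ)⁻¹ ≤ Fintype.card I * (Fintype.card I : ℝ) ^ Fintype.card T := by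
  have step : ∀ H ∈ 𝓗, ∑ i : T → I, ((hits 𝓗 j i + 1 : ℕ) : ℝ)⁻¹ ≤
      Fintype.card I * ∑ i : T → I with i H = j H, ((hits 𝓗 j i : ℕ) : ℝ)⁻¹ := by
    intro H hH
    rw [← sum_update H (j H) fun i => ((hits 𝓗 j i : ℕ) : ℝ)⁻¹]
    refine sum_le_sum fun i _ => ?_
    have h1 : hits 𝓗 j (Function.update i H (j H)) ≤ hits 𝓗 j i + 1 := by
      unfold hits
      have : 𝓗.filter (fun H' => Function.update i H (j H) H' = j H') ⊆
          insert H (𝓗.filter fun H' => i H' = j H') := by
        intro H' h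
        rw [mem_filter] at h
        rw [mem_insert, mem_filter]
        by_cases h2 : H' = H
        · exact Or.inl h2
        · refine Or.inr ⟨h.1, ?_⟩
          have := h.2
          rwa [Function.update_of_ne h2] at this
      exact (card_le_card this).trans (card_insert_le _ _)
    have h2 : 0 < hits 𝓗 j (Function.update i H (j H)) := by
      unfold hits
      refine card_pos.mpr ⟨H, mem_filter.mpr ⟨hH, by simp⟩⟩
    have h3 : (0 : ℝ) < (hits 𝓗 j (Function.update i H (j H)) : ℝ) := by exact_mod_cast h2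
    have h4 : ((hits 𝓗 j (Function.update i H (j H)) : ℕ) : ℝ) ≤ ((hits 𝓗 j i + 1 : ℕ) : ℝ) := by exact_mod_cast h1
    exact inv_anti₀ h3 h4
  have h1 : (𝓗.card : ℝ) * ∑ i : T → I, ((hits 𝓗 j i + 1 : ℕ) : ℝ)⁻¹ ≤
      ∑ H ∈ 𝓗, Fintype.card I * ∑ i : T → I with i H = j H, ((hits 𝓗 j i : ℕ) : ℝ)⁻¹ := by
    rw [← nsmul_eq_mul, ← sum_const]
    exact sum_le_sum step
  refine h1.trans ?_
  rw [← mul_sum]
  refine mul_le_mul_of_nonneg_left ?_ (Nat.cast_nonneg _)
  have h2 : ∑ H ∈ 𝓗, ∑ i : T → I with i H = j H, ((hits 𝓗 j i : ℕ) : ℝ)⁻¹ =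
      ∑ i : T → I, ∑ H ∈ 𝓗 with i H = j H, ((hits 𝓗 j i : ℕ) : ℝ)⁻¹ := by
    refine sum_comm' ?_
    intro H i
    simp only [mem_filter, mem_univ, true_and]
    tauto
  rw [h2]
  calc _ ≤ ∑ i : T → I, (1 : ℝ) := by
        refine sum_le_sum fun i _ => ?_
        rw [sum_const, nsmul_eq_mul]
        unfold hits
        by_cases h0 : (𝓗.filter fun H => i H = j H).card = 0
        · rw [h0]
          simp
        · rw [mul_inv_cancel₀ (by exact_mod_cast h0)]
    _ = _ := by
        rw [sum_const, nsmul_eq_mul, mul_one, card_univ, Fintype.card_fun]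
        push_cast
        rfl

variable [Fintype Kt] [DecidableEq Kt]

/-- the weight of a subset -/
noncomputable def W (κ : T → I → Kt) (B : Finset T) : ℝ :=
  (∑ i : T → I, μ (fun H => κ H (i H)) univ B) / (Fintype.card I : ℝ) ^ Fintype.card T

omit [DecidableEq I] in
lemma W_nonneg (κ : T → I → Kt) (B : Finset T) : 0 ≤ W κ B :=
  div_nonneg (sum_nonneg fun _ _ => μ_nonneg _ _ _) (by positivity)

omit [DecidableEq I] in
lemma W_total [Nonempty I] (κ : T → I → Kt) : ∑ B : Finset T, W κ B = 1 := by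
  classical
  unfold W
  rw [← sum_div, sum_comm]
  have h1 : ∀ i : T → I, ∑ B : Finset T, μ (fun H => κ H (i H)) univ B = 1 := by
    intro i
    rw [← μ_total (fun H => κ H (i H)) univ, powerset_univ]
  rw [sum_congr rfl fun i _ => h1 i, sum_const, nsmul_eq_mul, mul_one, card_univ, Fintype.card_fun]
  have h2 : (0 : ℝ) < (Fintype.card I : ℝ) := by exact_mod_cast Fintype.card_pos
  push_cast
  field_simp

/-- the main anticoncentration estimate -/
theorem W_anti [Nonempty I] (κ : T → I → Kt) (K : Kt) (d : T → ℤ) (x : ℤ) (𝓗 : Finset T) (h0 : 𝓗.Nonempty)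
    (hd : ∀ H i, κ H i = K → 0 ≤ d H) (h𝓗 : ∀ H ∈ 𝓗, (∃ i, κ H i = K) ∧ 0 < d H) :
    ∑ B : Finset T, W κ B * (if ∑ H ∈ B, d H = x then 1 else 0) ≤ (Fintype.card I : ℝ) / 𝓗.card := by
  classical
  have hI : (0 : ℝ) < (Fintype.card I : ℝ) := by exact_mod_cast Fintype.card_pos
  have hc : (0 : ℝ) < (𝓗.card : ℝ) := by exact_mod_cast card_pos.mpr h0
  obtain ⟨j, hj⟩ : ∃ j : T → I, ∀ H ∈ 𝓗, κ H (j H) = K := by
    refine ⟨fun H => if h : ∃ i, κ H i = K then h.choose else Classical.arbitrary I, fun H hH => ?_⟩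
    have h := (h𝓗 H hH).1
    simp only [h, dif_pos]
    exact h.choose_spec
  have h1 : ∀ i : T → I, ∑ B : Finset T, μ (fun H => κ H (i H)) univ B * (if ∑ H ∈ B, d H = x then 1 else 0) ≤
      ((hits 𝓗 j i + 1 : ℕ) : ℝ)⁻¹ := by
    intro i
    have h2 := μ_anti (fun H => κ H (i H)) univ K d x fun H _ hH => hd H _ hH
    rw [powerset_univ] at h2
    refine h2.trans ?_
    have h3 : hits 𝓗 j i ≤ ((univ : Finset T).filter fun H => κ H (i H) = K ∧ 0 < d H).card := by
      unfold hits
      refine card_le_card fun H hH => ?_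
      rw [mem_filter] at hH ⊢
      refine ⟨mem_univ _, ?_, (h𝓗 H hH.1).2⟩
      rw [hH.2]
      exact hj H hH.1
    refine inv_anti₀ (by positivity) ?_
    exact_mod_cast Nat.succ_le_succ h3
  have h2 : ∑ B : Finset T, W κ B * (if ∑ H ∈ B, d H = x then 1 else 0) =
      (∑ i : T → I, ∑ B : Finset T, μ (fun H => κ H (i H)) univ B * (if ∑ H ∈ B, d H = x then 1 else 0)) /
        (Fintype.card I : ℝ) ^ Fintype.card T := by
    unfold W
    rw [sum_comm, sum_div]
    refine sum_congr rfl fun B _ => ?_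
    rw [div_mul_eq_mul_div, sum_mul]
  rw [h2, div_le_div_iff₀ (by positivity) hc]
  calc _ ≤ (∑ i : T → I, ((hits 𝓗 j i + 1 : ℕ) : ℝ)⁻¹) * 𝓗.card := by
        refine mul_le_mul_of_nonneg_right ?_ hc.le
        exact sum_le_sum fun i _ => h1 i
    _ ≤ _ := by
        rw [mul_comm]
        exact hits_bound 𝓗 j

end Pool.Agent.V11271.HP
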