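import Pool.Agent.V11271.HP.Star

set_option autoImplicit false

/-!
# Isomorphism types of induced subgraphs
-/

namespace Pool.Agent.V11271.HP

open Finset

/-- isomorphism of graphs on `Fin m` -/
def isoSetoid (m : ℕ) : Setoid (SimpleGraph (Fin m)) where
  r G H := Nonempty (G ≃g H)
  iseqv := ⟨fun _ => ⟨SimpleGraph.Iso.refl⟩, fun ⟨e⟩ => ⟨e.symm⟩, fun ⟨e⟩ ⟨f⟩ => ⟨e.trans f⟩⟩

/-- isomorphism types of graphs with `m` vertices -/
def Ty (m : ℕ) : Type := Quotient (isoSetoid m)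

noncomputable instance (m : ℕ) : Fintype (Ty m) :=
  @Fintype.ofFinite (Ty m) (inferInstanceAs (Finite (Quotient (isoSetoid m))))

noncomputable instance (m : ℕ) : DecidableEq (Ty m) := Classical.decEq _

/-- the type of a graph -/
def mk {m : ℕ} (G : SimpleGraph (Fin m)) : Ty m := Quotient.mk (isoSetoid m) G

/-- a representative -/
noncomputable def out {m : ℕ} (H : Ty m) : SimpleGraph (Fin m) := Quotient.out H

lemma mk_eq_iff {m : ℕ} {G H : SimpleGraph (Fin m)} : mk G = mk H ↔ Nonempty (G ≃g H) :=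
  Quotient.eq (r := isoSetoid m)

lemma mk_out {m : ℕ} (H : Ty m) : mk (out H) = H := Quotient.out_eq H

lemma mk_comap {m : ℕ} (G : SimpleGraph (Fin m)) (e : Fin m ≃ Fin m) : mk (G.comap e) = mk G :=
  mk_eq_iff.mpr ⟨SimpleGraph.Iso.comap e G⟩

lemma exists_equiv {m : ℕ} {G H : SimpleGraph (Fin m)} (h : mk G = mk H) :
    ∃ e : Fin m ≃ Fin m, G = H.comap e := by
  obtain ⟨e⟩ := mk_eq_iff.mp h
  refine ⟨e.toEquiv, ?_⟩
  ext x y
  rw [SimpleGraph.comap_adj]
  exact (e.map_rel_iff (a := x) (b := y)).symm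

/-- subsets of size `m` -/
abbrev Sub (m n : ℕ) : Type := {S : Finset (Fin n) // S.card = m}

/-- the increasing enumeration -/
def enum {m n : ℕ} (S : Sub m n) : Fin m ↪ Fin n := (S.1.orderEmbOfFin S.2).toEmbedding

lemma enum_mem {m n : ℕ} (S : Sub m n) (x : Fin m) : enum S x ∈ S.1 := S.1.orderEmbOfFin_mem S.2 x

lemma enum_surj {m n : ℕ} (S : Sub m n) {v : Fin n} (hv : v ∈ S.1) : ∃ x, enum S x = v := by
  have h := Finset.range_orderEmbOfFin S.1 S.2
  have : v ∈ Set.range (S.1.orderEmbOfFin S.2) := by rw [h]; exact hv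
  exact this

/-- the type of an induced subgraph -/
def typ {m n : ℕ} (G : SimpleGraph (Fin n)) (S : Sub m n) : Ty m := mk (G.comap (enum S))

/-- factoring an embedding through the enumeration -/
lemma factor {r m n : ℕ} (S : Sub m n) (f : Fin r ↪ Fin n) (h : ∀ x, f x ∈ S.1) :
    ∃ j : Fin r ↪ Fin m, ∀ x, enum S (j x) = f x := by
  choose j hj using fun x => enum_surj S (h x)
  refine ⟨⟨j, fun x y hxy => ?_⟩, hj⟩
  apply f.injective
  rw [← hj x, ← hj y, hxy]

lemma typ_of_emb {m n : ℕ} (G : SimpleGraph (Fin n)) (S : Sub m n) (f : Fin m ↪ Fin n) (h : ∀ x, f x ∈ S.1) :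
    typ G S = mk (G.comap f) := by
  obtain ⟨j, hj⟩ := factor S f h
  have hb : Function.Bijective j := Finite.injective_iff_bijective.mp j.injective
  have e1 : G.comap f = (G.comap (enum S)).comap (Equiv.ofBijective j hb) := by
    ext x y
    simp only [SimpleGraph.comap_adj, Equiv.ofBijective_apply, hj]
  rw [e1, mk_comap]
  rfl

/-- occurrence of a type in a graph -/
def occ {r n : ℕ} (K : Ty r) (G : SimpleGraph (Fin n)) : Prop := ∃ f : Fin r ↪ Fin n, mk (G.comap f) = K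

lemma occ_typ {m n : ℕ} (G : SimpleGraph (Fin n)) (S : Sub m n) : occ (typ G S) G := ⟨enum S, rfl⟩

/-- the range of an embedding -/
def rng {m n : ℕ} (f : Fin m ↪ Fin n) : Sub m n := ⟨univ.map f, by simp⟩

lemma mem_rng {m n : ℕ} (f : Fin m ↪ Fin n) (x : Fin m) : f x ∈ (rng f).1 := by simp [rng]

lemma typ_rng {m n : ℕ} (G : SimpleGraph (Fin n)) (f : Fin m ↪ Fin n) : typ G (rng f) = mk (G.comap f) :=
  typ_of_emb G _ f (mem_rng f)

lemma occ_iff {r n : ℕ} {K : Ty r} {G : SimpleGraph (Fin n)} : occ K G ↔ ∃ S : Sub r n, typ G S = K := by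
  constructor
  · rintro ⟨f, hf⟩
    exact ⟨rng f, by rw [typ_rng, hf]⟩
  · rintro ⟨S, hS⟩
    exact hS ▸ occ_typ G S

lemma occ_trans {r m n : ℕ} {K : Ty r} {H : Ty m} {G : SimpleGraph (Fin n)} (h1 : occ K (out H)) (h2 : occ H G) :
    occ K G := by
  obtain ⟨i, hi⟩ := h1
  obtain ⟨f, hf⟩ := h2
  have h3 : mk (out H) = mk (G.comap f) := by rw [mk_out, hf]
  obtain ⟨e, he⟩ := exists_equiv h3
  refine ⟨i.trans (e.toEmbedding.trans f), ?_⟩
  rw [← hi, he]
  rfl

/-- a subset containing `R` has a type in which the type of `R` occurs -/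
lemma occ_out {r m n : ℕ} (G : SimpleGraph (Fin n)) (R : Sub r n) (S : Sub m n) (h : R.1 ⊆ S.1) :
    ∃ i : Sub r m, typ (out (typ G S)) i = typ G R := by
  obtain ⟨j, hj⟩ := factor S (enum R) fun x => h (enum_mem R x)
  have h3 : mk (out (typ G S)) = mk (G.comap (enum S)) := by rw [mk_out]; rfl
  obtain ⟨e, he⟩ := exists_equiv h3
  refine ⟨rng (j.trans e.symm.toEmbedding), ?_⟩
  rw [typ_rng, he]
  unfold typ
  congr 1
  ext x y
  simp only [SimpleGraph.comap_adj, Function.Embedding.trans_apply, Equiv.coe_toEmbedding,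
    Equiv.apply_symm_apply, hj]

/-- partial embeddings -/
def Emb {α : Type} (G G' : SimpleGraph α) (S : Finset α) (φ : α → α) : Prop :=
  Set.InjOn φ S ∧ ∀ u ∈ S, ∀ v ∈ S, (G.Adj u v ↔ G'.Adj (φ u) (φ v))

/-- uniquely embedded subsets -/
def UE {α : Type} (G : SimpleGraph α) (S : Finset α) : Prop := ∀ φ : α → α, Emb G G S φ → ∀ u ∈ S, φ u = u

lemma exists_Emb {m n : ℕ} {G G' : SimpleGraph (Fin n)} {S S' : Sub m n} (h : typ G S = typ G' S') :
    ∃ φ : Fin n → Fin n, Emb G G' S.1 φ ∧ ∀ x ∈ S.1, φ x ∈ S'.1 := by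
  classical
  obtain ⟨e, he⟩ := exists_equiv h
  have hex : ∀ v : Fin n, ∃ y : Fin n, ∀ hv : v ∈ S.1, ∃ x : Fin m, enum S x = v ∧ enum S' (e x) = y := by
    intro v
    by_cases hv : v ∈ S.1
    · obtain ⟨x, hx⟩ := enum_surj S hv
      exact ⟨enum S' (e x), fun _ => ⟨x, hx, rfl⟩⟩
    · exact ⟨v, fun h => absurd h hv⟩
  choose φ hφ using hex
  refine ⟨φ, ⟨?_, ?_⟩, ?_⟩
  · intro u hu v hv huv
    obtain ⟨x, hx, hx2⟩ := hφ u hu
    obtain ⟨y, hy, hy2⟩ := hφ v hv
    rw [← hx2, ← hy2] at huv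
    have h1 := (enum S').injective huv
    have h2 := e.injective h1
    rw [← hx, ← hy, h2]
  · intro u hu v hv
    obtain ⟨x, hx, hx2⟩ := hφ u hu
    obtain ⟨y, hy, hy2⟩ := hφ v hv
    rw [← hx2, ← hy2, ← hx, ← hy]
    have h1 : (G.comap (enum S)).Adj x y ↔ ((G'.comap (enum S')).comap e).Adj x y := by rw [he]
    simpa only [SimpleGraph.comap_adj] using h1
  · intro u hu
    obtain ⟨x, hx, hx2⟩ := hφ u hu
    rw [← hx2]
    exact enum_mem S' _

/-- the image of a subset under a partial embedding has the same type -/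
lemma typ_image {m n : ℕ} {G G' : SimpleGraph (Fin n)} {S : Sub m n} {φ : Fin n → Fin n} (h : Emb G G' S.1 φ) :
    ∃ S' : Sub m n, S'.1 = S.1.image φ ∧ typ G' S' = typ G S := by
  refine ⟨⟨S.1.image φ, by rw [card_image_of_injOn h.1]; exact S.2⟩, rfl, ?_⟩
  rw [typ_of_emb G' _ ⟨fun x => φ (enum S x), fun x y hxy => (enum S).injective
    (h.1 (enum_mem S x) (enum_mem S y) hxy)⟩ fun x => mem_image_of_mem _ (enum_mem S x)]
  unfold typ
  congr 1
  ext x y
  simp only [SimpleGraph.comap_adj]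
  exact (h.2 _ (enum_mem S x) _ (enum_mem S y)).symm

/-- uniquely embedded subsets have different types -/
lemma UE_inj {m n : ℕ} {G : SimpleGraph (Fin n)} {S S' : Sub m n} (hS : UE G S.1) (h : typ G S = typ G S') :
    S = S' := by
  obtain ⟨φ, h1, h2⟩ := exists_Emb h
  have h3 : S.1 ⊆ S'.1 := by
    intro x hx
    have := h2 x hx
    rwa [hS φ h1 x hx] at this
  exact Subtype.ext (eq_of_subset_of_card_le h3 (by rw [S.2, S'.2]))

/-- the number of occurrences -/
noncomputable def cnt {m n : ℕ} (G : SimpleGraph (Fin n)) (H : Ty m) : ℕ :=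
  ((univ : Finset (Sub m n)).filter fun S => typ G S = H).card

lemma cnt_pos {m n : ℕ} {G : SimpleGraph (Fin n)} {H : Ty m} (h : 0 < cnt G H) : occ H G := by
  unfold cnt at h
  rw [card_pos] at h
  obtain ⟨S, hS⟩ := h
  exact occ_iff.mpr ⟨S, (mem_filter.mp hS).2⟩

lemma cnt_typ {m n : ℕ} (G : SimpleGraph (Fin n)) (S : Sub m n) : 0 < cnt G (typ G S) := by
  unfold cnt
  rw [card_pos]
  exact ⟨S, by simp⟩

/-- the number of subsets with type in `B` -/
noncomputable def NN {m n : ℕ} (G : SimpleGraph (Fin n)) (B : Finset (Ty m)) : ℕ :=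
  ((univ : Finset (Sub m n)).filter fun S => typ G S ∈ B).card

lemma NN_eq {m n : ℕ} (G : SimpleGraph (Fin n)) (B : Finset (Ty m)) : NN G B = ∑ H ∈ B, cnt G H := by
  unfold NN cnt
  rw [← card_biUnion]
  · congr 1
    ext S
    simp
  · intro H _ H' _ hne
    rw [Function.onFun, disjoint_left]
    intro S h1 h2
    exact hne ((mem_filter.mp h1).2.symm.trans (mem_filter.mp h2).2)

/-- the colouring at level `m` -/
noncomputable def kap (m : ℕ) (H : Ty m) (i : Sub (Nat.sqrt m) m) : Ty (Nat.sqrt m) := typ (out H) i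

instance (m : ℕ) : Nonempty (Sub (Nat.sqrt m) m) := by
  obtain ⟨S, _, hS⟩ := Finset.exists_subset_card_eq (s := (univ : Finset (Fin m))) (n := Nat.sqrt m)
    (by rw [card_univ, Fintype.card_fin]; exact Nat.sqrt_le_self m)
  exact ⟨⟨S, hS⟩⟩

lemma card_Sub (m n : ℕ) : Fintype.card (Sub m n) = n.choose m := by
  classical
  have h1 : Fintype.card (Sub m n) = ((univ : Finset (Finset (Fin n))).filter fun S => S.card = m).card :=
    Fintype.card_subtype _
  rw [h1, ← powerset_univ, ← powersetCard_eq_filter, card_powersetCard, card_univ, Fintype.card_fin]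

/-- the weights at level `m` -/
noncomputable def Wl (m : ℕ) (B : Finset (Ty m)) : ℝ := W (kap m) B

/-- anticoncentration for a pair of graphs at level `m` -/
theorem Wl_anti {m n : ℕ} (G G' : SimpleGraph (Fin n)) (R : Sub (Nat.sqrt m) n) (hR : ¬ occ (typ G R) G')
    (𝓢 : Finset (Sub m n)) (h0 : 𝓢.Nonempty) (h𝓢 : ∀ S ∈ 𝓢, R.1 ⊆ S.1 ∧ UE G S.1) (x : ℤ) :
    ∑ B : Finset (Ty m), Wl m B * (if (NN G B : ℤ) - NN G' B = x then 1 else 0) ≤
      (m.choose (Nat.sqrt m) : ℝ) / 𝓢.card := by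
  have h1 := W_anti (kap m) (typ G R) (fun H => (cnt G H : ℤ) - cnt G' H) x (𝓢.image (typ G))
    (h0.image _) ?_ ?_
  · rw [card_Sub, card_image_of_injOn fun S hS S' _ h => UE_inj (h𝓢 S hS).2 h] at h1
    refine le_trans (le_of_eq ?_) h1
    refine sum_congr rfl fun B _ => ?_
    unfold Wl
    congr 2
    rw [NN_eq, NN_eq, sum_sub_distrib]
    push_cast
    rfl
  · intro H i hi
    have h2 : cnt G' H = 0 := by
      by_contra h3
      exact hR (occ_trans (hi ▸ occ_typ (out H) i) (cnt_pos (Nat.pos_of_ne_zero h3)))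
    simp [h2]
  · intro H hH
    obtain ⟨S, hS, rfl⟩ := mem_image.mp hH
    obtain ⟨i, hi⟩ := occ_out G R S (h𝓢 S hS).1
    refine ⟨⟨i, hi⟩, ?_⟩
    have h2 : cnt G' (typ G S) = 0 := by
      by_contra h3
      have h4 : occ (typ G R) (out (typ G S)) := hi ▸ occ_typ _ i
      exact hR (occ_trans h4 (cnt_pos (Nat.pos_of_ne_zero h3)))
    have h3 := cnt_typ G S
    simp only [h2]
    push_cast
    omega

end Pool.Agent.V11271.HP
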