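import Mathlib

set_option autoImplicit false

/-!
# A random subset with strong anticoncentration
-/

namespace Pool.Agent.V11271.HP

open Finset

variable {T : Type*} [DecidableEq T]

/-- LYM inequality for level sets of positive weights -/
lemma lym (d : T → ℤ) (y : ℤ) (A : Finset T) : (∀ a ∈ A, 0 < d a) →
    ∑ B ∈ A.powerset with ∑ H ∈ B, d H = y, ((A.card.choose B.card : ℕ) : ℝ)⁻¹ ≤ 1 := by
  induction A using Finset.strongInduction with
  | H A ih =>
    intro hd
    by_cases hy : ∑ H ∈ A, d H = y
    · have e : (A.powerset.filter fun B => ∑ H ∈ B, d H = y) = {A} := by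
        ext B
        simp only [mem_filter, mem_powerset, mem_singleton]
        constructor
        · rintro ⟨h1, h2⟩
          by_contra h3
          have h4 : ∑ H ∈ B, d H < ∑ H ∈ A, d H := by
            obtain ⟨a, ha, haB⟩ := Finset.exists_of_ssubset (Finset.ssubset_iff_subset_ne.mpr ⟨h1, h3⟩)
            exact Finset.sum_lt_sum_of_subset h1 ha haB (hd a ha) fun b hb _ => (hd b hb).le
          omega
        · rintro rfl
          exact ⟨Subset.rfl, hy⟩
      rw [e]
      simp
    · have hA : A.Nonempty ∨ A = ∅ := by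
        rcases A.eq_empty_or_nonempty with h | h
        · exact Or.inr h
        · exact Or.inl h
      rcases hA with hA | hA
      · have ha0 : (0 : ℝ) < A.card := by exact_mod_cast Finset.card_pos.mpr hA
        have e1 : ∀ B ∈ A.powerset.filter (fun B => ∑ H ∈ B, d H = y),
            ((A.card.choose B.card : ℕ) : ℝ)⁻¹ =
              (A.card : ℝ)⁻¹ * ∑ e ∈ A \ B, (((A.card - 1).choose B.card : ℕ) : ℝ)⁻¹ := by
          intro B hB
          rw [mem_filter, mem_powerset] at hB
          obtain ⟨h1, h2⟩ := hB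
          have h3 : B ≠ A := by
            rintro rfl
            exact hy h2
          have h4 : B.card < A.card := Finset.card_lt_card (Finset.ssubset_iff_subset_ne.mpr ⟨h1, h3⟩)
          rw [sum_const, card_sdiff_of_subset h1, nsmul_eq_mul]
          obtain ⟨a, ha⟩ : ∃ a, A.card = a + 1 := ⟨A.card - 1, by omega⟩
          have h5 := Nat.add_one_mul_choose_eq a (a - B.card)
          have h6 : B.card ≤ a := by omega
          have e2 : a.choose B.card = a.choose (a - B.card) := (Nat.choose_symm h6).symm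
          have e3 : (a + 1).choose B.card = (a + 1).choose (a - B.card + 1) := by
            rw [← Nat.choose_symm (show B.card ≤ a + 1 by omega)]
            congr 1
            omega
          have h7 : ((a + 1 : ℕ) : ℝ) * (a.choose B.card : ℝ) =
              ((a + 1).choose B.card : ℝ) * ((a + 1 - B.card : ℕ) : ℝ) := by
            have h8 : (a + 1) * a.choose B.card = (a + 1).choose B.card * (a + 1 - B.card) := by
              rw [e2, e3]
              have : a + 1 - B.card = a - B.card + 1 := by omega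
              rw [this]
              exact h5
            exact_mod_cast h8
          rw [ha]
          simp only [Nat.add_sub_cancel]
          have p1 : (0 : ℝ) < (a.choose B.card : ℝ) := by exact_mod_cast Nat.choose_pos h6
          have p2 : (0 : ℝ) < ((a + 1).choose B.card : ℝ) := by exact_mod_cast Nat.choose_pos (by omega)
          have p3 : (0 : ℝ) < ((a + 1 : ℕ) : ℝ) := by positivity
          field_simp
          linarith
        rw [sum_congr rfl e1, ← mul_sum]
        have e2 : ∑ B ∈ A.powerset with ∑ H ∈ B, d H = y, ∑ e ∈ A \ B, (((A.card - 1).choose B.card : ℕ) : ℝ)⁻¹ =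
            ∑ e ∈ A, ∑ B ∈ (A.erase e).powerset with ∑ H ∈ B, d H = y,
              (((A.erase e).card.choose B.card : ℕ) : ℝ)⁻¹ := by
          rw [Finset.sum_comm' (t' := A) (s' := fun e => (A.erase e).powerset.filter fun B => ∑ H ∈ B, d H = y)]
          · refine sum_congr rfl fun e he => sum_congr rfl fun B _ => ?_
            rw [card_erase_of_mem he]
          · intro B e
            simp only [mem_filter, mem_powerset, mem_sdiff, subset_erase]
            tauto
        rw [e2]
        have e3 : ∑ e ∈ A, ∑ B ∈ (A.erase e).powerset with ∑ H ∈ B, d H = y,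
              (((A.erase e).card.choose B.card : ℕ) : ℝ)⁻¹ ≤ ∑ e ∈ A, 1 := by
          refine sum_le_sum fun e he => ?_
          exact ih _ (erase_ssubset he) fun a ha => hd a (mem_of_mem_erase ha)
        rw [sum_const, nsmul_eq_mul, mul_one] at e3
        calc (A.card : ℝ)⁻¹ * _ ≤ (A.card : ℝ)⁻¹ * A.card := by gcongr
          _ = 1 := by field_simp
      · subst hA
        rw [sum_empty] at hy
        rw [powerset_empty, filter_singleton, if_neg (by rwa [sum_empty]), sum_empty]
        exact zero_le_one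

/-- the weight of the trace of `B` on the class `c` -/
noncomputable def w (c B : Finset T) : ℝ := (((c.card + 1) * c.card.choose (B ∩ c).card : ℕ) : ℝ)⁻¹

lemma w_nonneg (c B : Finset T) : 0 ≤ w c B := by unfold w; positivity

lemma w_empty (B : Finset T) : w ∅ B = 1 := by simp [w]

/-- peeling off one element -/
lemma w_peel {c : Finset T} {e : T} (he : e ∉ c) (B : Finset T) (heB : e ∉ B) :
    w (insert e c) B + w (insert e c) (insert e B) = w c B := by
  unfold w
  have e1 : B ∩ insert e c = B ∩ c := by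
    ext x
    simp only [mem_inter, mem_insert]
    constructor
    · rintro ⟨h1, rfl | h2⟩
      · exact absurd h1 heB
      · exact ⟨h1, h2⟩
    · rintro ⟨h1, h2⟩
      exact ⟨h1, Or.inr h2⟩
  have e2 : insert e B ∩ insert e c = insert e (B ∩ c) := by
    ext x
    simp only [mem_inter, mem_insert]
    tauto
  have e3 : (insert e (B ∩ c)).card = (B ∩ c).card + 1 := card_insert_of_notMem fun h => he (mem_inter.mp h).2
  rw [e1, e2, e3, card_insert_of_notMem he]
  have hle : (B ∩ c).card ≤ c.card := card_le_card inter_subset_right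
  generalize (B ∩ c).card = b at hle
  generalize c.card = M at hle
  have h1 := Nat.add_one_mul_choose_eq M b
  have h2 : (M + 1).choose b * (M + 1 - b) = (M + 1) * M.choose b := by
    have e4 : M.choose b = M.choose (M - b) := (Nat.choose_symm hle).symm
    have e5 : (M + 1).choose b = (M + 1).choose (M - b + 1) := by
      rw [← Nat.choose_symm (show b ≤ M + 1 by omega)]
      congr 1
      omega
    rw [e4, e5]
    have := Nat.add_one_mul_choose_eq M (M - b)
    have e6 : M + 1 - b = M - b + 1 := by omega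
    rw [e6]
    exact this.symm
  have p1 : (0 : ℝ) < (M.choose b : ℝ) := by exact_mod_cast Nat.choose_pos hle
  have p2 : (0 : ℝ) < ((M + 1).choose b : ℝ) := by exact_mod_cast Nat.choose_pos (by omega)
  have p3 : (0 : ℝ) < ((M + 1).choose (b + 1) : ℝ) := by exact_mod_cast Nat.choose_pos (by omega)
  have q1 : ((M : ℝ) + 1) * M.choose b = (M + 1).choose (b + 1) * ((b : ℝ) + 1) := by exact_mod_cast h1
  have q2 : ((M + 1).choose b : ℝ) * ((M : ℝ) + 1 - b) = ((M : ℝ) + 1) * M.choose b := by
    have : ((M + 1 - b : ℕ) : ℝ) = (M : ℝ) + 1 - b := by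
      rw [Nat.cast_sub (by omega)]
      push_cast
      ring
    rw [← this]
    exact_mod_cast h2
  push_cast
  have hM : (0 : ℝ) < (M : ℝ) + 1 := by positivity
  have hM2 : (0 : ℝ) < (M : ℝ) + 1 + 1 := by positivity
  have r1 : ((M + 1).choose b : ℝ)⁻¹ = ((M : ℝ) + 1 - b) / (((M : ℝ) + 1) * M.choose b) := by
    rw [eq_div_iff (by positivity), ← q2]
    field_simp
  have r2 : ((M + 1).choose (b + 1) : ℝ)⁻¹ = ((b : ℝ) + 1) / (((M : ℝ) + 1) * M.choose b) := by
    rw [eq_div_iff (by positivity), q1]
    field_simp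
  rw [mul_inv, mul_inv, mul_inv, r1, r2]
  field_simp
  ring

/-- sums over the subsets of a disjoint union -/
lemma sum_powerset_union {β : Type*} [AddCommMonoid β] (c t : Finset T) (h : Disjoint c t) (f : Finset T → β) :
    ∑ X ∈ (c ∪ t).powerset, f X = ∑ B ∈ c.powerset, ∑ Q ∈ t.powerset, f (B ∪ Q) := by
  induction c using Finset.induction_on generalizing f with
  | empty => simp
  | insert e c he ih =>
    rw [disjoint_insert_left] at h
    rw [insert_union, sum_powerset_insert (by simp [he, h.1]), sum_powerset_insert he, ih h.2,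
      ih h.2 fun X => f (insert e X)]
    congr 1
    refine sum_congr rfl fun B _ => sum_congr rfl fun Q _ => ?_
    rw [insert_union]

/-- marginals -/
lemma w_marginal (A Z : Finset T) (h : Disjoint A Z) (F : Finset T → ℝ) :
    ∑ B ∈ (A ∪ Z).powerset, w (A ∪ Z) B * F (B ∩ A) = ∑ B ∈ A.powerset, w A B * F B := by
  induction Z using Finset.induction_on with
  | empty =>
    rw [union_empty]
    refine sum_congr rfl fun B hB => ?_
    rw [inter_eq_left.mpr (mem_powerset.mp hB)]
  | insert e Z he ih =>
    rw [disjoint_insert_right] at h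
    have he2 : e ∉ A ∪ Z := by simp [he, h.1]
    rw [union_insert, sum_powerset_insert he2, ← ih h.2, ← sum_add_distrib]
    refine sum_congr rfl fun B hB => ?_
    have heB : e ∉ B := fun h' => he2 (mem_powerset.mp hB h')
    have e1 : insert e B ∩ A = B ∩ A := by
      ext x
      simp only [mem_inter, mem_insert]
      constructor
      · rintro ⟨rfl | h1, h2⟩
        · exact absurd h2 h.1
        · exact ⟨h1, h2⟩
      · rintro ⟨h1, h2⟩
        exact ⟨Or.inr h1, h2⟩
    rw [e1, ← add_mul, w_peel he2 B heB]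

/-- anticoncentration for one class -/
lemma w_anti (c : Finset T) (d : T → ℤ) (y : ℤ) (hd : ∀ a ∈ c, 0 ≤ d a) :
    ∑ B ∈ c.powerset, w c B * (if ∑ H ∈ B, d H = y then 1 else 0) ≤
      (((c.filter fun H => 0 < d H).card + 1 : ℕ) : ℝ)⁻¹ := by
  obtain ⟨A, hA⟩ : ∃ A, A = c.filter fun H => 0 < d H := ⟨_, rfl⟩
  obtain ⟨Z, hZ⟩ : ∃ Z, Z = c.filter fun H => ¬ 0 < d H := ⟨_, rfl⟩
  have hc : c = A ∪ Z := by rw [hA, hZ, filter_union_filter_not_eq]
  have hdis : Disjoint A Z := by rw [hA, hZ]; exact disjoint_filter_filter_not _ _ _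
  have key : ∀ B ∈ c.powerset, ∑ H ∈ B, d H = ∑ H ∈ B ∩ A, d H := by
    intro B hB
    symm
    refine sum_subset inter_subset_left fun x hx hxA => ?_
    have h1 : x ∈ c := mem_powerset.mp hB hx
    have h2 := hd x h1
    have h3 : ¬ 0 < d x := fun h => hxA (mem_inter.mpr ⟨hx, by rw [hA]; exact mem_filter.mpr ⟨h1, h⟩⟩)
    omega
  rw [← hA]
  have e1 : ∑ B ∈ c.powerset, w c B * (if ∑ H ∈ B, d H = y then 1 else 0) =
      ∑ B ∈ A.powerset, w A B * (if ∑ H ∈ B, d H = y then 1 else 0) := by
    have e0 := w_marginal A Z hdis fun X => if ∑ H ∈ X, d H = y then 1 else 0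
    rw [← hc] at e0
    rw [← e0]
    refine sum_congr rfl fun B hB => ?_
    rw [key B hB]
  rw [e1]
  have e2 : ∑ B ∈ A.powerset, w A B * (if ∑ H ∈ B, d H = y then 1 else 0) =
      (((A.card + 1 : ℕ) : ℝ))⁻¹ * ∑ B ∈ A.powerset with ∑ H ∈ B, d H = y, ((A.card.choose B.card : ℕ) : ℝ)⁻¹ := by
    rw [mul_sum, sum_filter]
    refine sum_congr rfl fun B hB => ?_
    unfold w
    rw [inter_eq_left.mpr (mem_powerset.mp hB)]
    split_ifs
    · push_cast
      rw [mul_inv]
      ring
    · simp
  rw [e2]
  have := lym d y A fun a ha => by rw [hA] at ha; exact (mem_filter.mp ha).2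
  exact (mul_le_mul_of_nonneg_left this (inv_nonneg.mpr (Nat.cast_nonneg _))).trans_eq (mul_one _)

variable {Kt : Type*} [Fintype Kt] [DecidableEq Kt]

/-- the class of `K` in `t` -/
def cls (κ : T → Kt) (t : Finset T) (K : Kt) : Finset T := t.filter fun H => κ H = K

/-- the weight of a subset for a given colouring -/
noncomputable def μ (κ : T → Kt) (t B : Finset T) : ℝ := ∏ K, w (cls κ t K) B

lemma μ_nonneg (κ : T → Kt) (t B : Finset T) : 0 ≤ μ κ t B := prod_nonneg fun _ _ => w_nonneg _ _

lemma w_congr {c B B' : Finset T} (h : B ∩ c = B' ∩ c) : w c B = w c B' := by unfold w; rw [h]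

lemma μ_peel (κ : T → Kt) {t : Finset T} {e : T} (he : e ∉ t) (B : Finset T) (heB : e ∉ B) :
    μ κ (insert e t) B + μ κ (insert e t) (insert e B) = μ κ t B := by
  unfold μ
  rw [← mul_prod_erase univ _ (mem_univ (κ e)), ← mul_prod_erase univ (fun K => w (cls κ (insert e t) K) (insert e B))
    (mem_univ (κ e)), ← mul_prod_erase univ (fun K => w (cls κ t K) B) (mem_univ (κ e))]
  have e1 : ∀ K ∈ univ.erase (κ e), cls κ (insert e t) K = cls κ t K := by
    intro K hK
    unfold cls
    rw [filter_insert, if_neg]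
    exact fun h => (mem_erase.mp hK).1 h.symm
  have e2 : ∏ K ∈ univ.erase (κ e), w (cls κ (insert e t) K) B = ∏ K ∈ univ.erase (κ e), w (cls κ t K) B :=
    prod_congr rfl fun K hK => by rw [e1 K hK]
  have e3 : ∏ K ∈ univ.erase (κ e), w (cls κ (insert e t) K) (insert e B) =
      ∏ K ∈ univ.erase (κ e), w (cls κ t K) B := by
    refine prod_congr rfl fun K hK => ?_
    rw [e1 K hK]
    refine w_congr ?_
    ext x
    simp only [mem_inter, mem_insert]
    constructor
    · rintro ⟨rfl | h1, h2⟩
      · exact absurd (mem_filter.mp h2).1 he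
      · exact ⟨h1, h2⟩
    · rintro ⟨h1, h2⟩
      exact ⟨Or.inr h1, h2⟩
  have e4 : cls κ (insert e t) (κ e) = insert e (cls κ t (κ e)) := by
    unfold cls
    rw [filter_insert, if_pos rfl]
  rw [e2, e3, e4, ← add_mul]
  congr 1
  exact w_peel (fun h => he (mem_filter.mp h).1) B heB

lemma μ_total (κ : T → Kt) (t : Finset T) : ∑ B ∈ t.powerset, μ κ t B = 1 := by
  induction t using Finset.induction_on with
  | empty =>
    rw [powerset_empty, sum_singleton]
    unfold μ cls
    refine prod_eq_one fun K _ => ?_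
    rw [filter_empty]
    exact w_empty _
  | insert e t he ih =>
    rw [sum_powerset_insert he, ← sum_add_distrib, ← ih]
    refine sum_congr rfl fun B hB => ?_
    exact μ_peel κ he B fun h => he (mem_powerset.mp hB h)

/-- anticoncentration for a given colouring -/
lemma μ_anti (κ : T → Kt) (t : Finset T) (K : Kt) (d : T → ℤ) (x : ℤ) (hd : ∀ H ∈ t, κ H = K → 0 ≤ d H) :
    ∑ B ∈ t.powerset, μ κ t B * (if ∑ H ∈ B, d H = x then 1 else 0) ≤
      (((t.filter fun H => κ H = K ∧ 0 < d H).card + 1 : ℕ) : ℝ)⁻¹ := by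
  obtain ⟨c, hc⟩ : ∃ c, c = cls κ t K := ⟨_, rfl⟩
  obtain ⟨q, hq⟩ : ∃ q, q = t.filter fun H => ¬ κ H = K := ⟨_, rfl⟩
  have ht : t = c ∪ q := by rw [hc, hq]; unfold cls; rw [filter_union_filter_not_eq]
  have hdis : Disjoint c q := by rw [hc, hq]; exact disjoint_filter_filter_not _ _ _
  have hfac : ∀ B ∈ c.powerset, ∀ Q ∈ q.powerset, μ κ t (B ∪ Q) = w c B * μ κ q Q := by
    intro B hB Q hQ
    rw [mem_powerset] at hB hQ
    unfold μ
    rw [← mul_prod_erase univ _ (mem_univ K), ← mul_prod_erase univ (fun K => w (cls κ q K) Q) (mem_univ K)]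
    have e1 : cls κ q K = ∅ := by
      rw [hq]
      unfold cls
      ext H
      simp only [mem_filter, notMem_empty, iff_false]
      tauto
    have e2 : w (cls κ t K) (B ∪ Q) = w c B := by
      rw [← hc]
      refine w_congr ?_
      ext H
      simp only [mem_inter, mem_union]
      constructor
      · rintro ⟨h1 | h1, h2⟩
        · exact ⟨h1, h2⟩
        · exact absurd (hQ h1) (disjoint_left.mp hdis h2)
      · rintro ⟨h1, h2⟩
        exact ⟨Or.inl h1, h2⟩
    rw [e1, e2, w_empty, one_mul]
    congr 1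
    refine prod_congr rfl fun K' hK' => ?_
    have hne : K' ≠ K := (mem_erase.mp hK').1
    have e3 : cls κ t K' = cls κ q K' := by
      rw [hq]
      unfold cls
      ext H
      simp only [mem_filter]
      constructor
      · rintro ⟨h1, h2⟩
        exact ⟨⟨h1, fun h => hne (h2.symm.trans h)⟩, h2⟩
      · rintro ⟨⟨h1, _⟩, h2⟩
        exact ⟨h1, h2⟩
    rw [e3]
    refine w_congr ?_
    ext H
    simp only [mem_inter, mem_union]
    constructor
    · rintro ⟨h1 | h1, h2⟩
      · have h3 : H ∈ q := (mem_filter.mp h2).1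
        exact absurd h3 (disjoint_left.mp hdis (hB h1))
      · exact ⟨h1, h2⟩
    · rintro ⟨h1, h2⟩
      exact ⟨Or.inr h1, h2⟩
  have e0 : ∑ B ∈ t.powerset, μ κ t B * (if ∑ H ∈ B, d H = x then (1 : ℝ) else 0) =
      ∑ Q ∈ q.powerset, μ κ q Q * ∑ B ∈ c.powerset, w c B * (if ∑ H ∈ B, d H = x - ∑ H ∈ Q, d H then 1 else 0) := by
    conv_lhs => rw [ht]
    rw [sum_powerset_union c q hdis, sum_comm]
    refine sum_congr rfl fun Q hQ => ?_
    rw [mul_sum]
    refine sum_congr rfl fun B hB => ?_
    rw [← ht, hfac B hB Q hQ]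
    have hd2 : Disjoint B Q := disjoint_of_subset_left (mem_powerset.mp hB)
      (disjoint_of_subset_right (mem_powerset.mp hQ) hdis)
    rw [sum_union hd2]
    have : (∑ H ∈ B, d H + ∑ H ∈ Q, d H = x) ↔ (∑ H ∈ B, d H = x - ∑ H ∈ Q, d H) := by omega
    simp only [this]
    ring
  rw [e0]
  have e1 : (t.filter fun H => κ H = K ∧ 0 < d H) = c.filter fun H => 0 < d H := by
    rw [hc]
    unfold cls
    rw [filter_filter]
  rw [e1]
  calc _ ≤ ∑ Q ∈ q.powerset, μ κ q Q * (((c.filter fun H => 0 < d H).card + 1 : ℕ) : ℝ)⁻¹ := by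
        refine sum_le_sum fun Q _ => ?_
        refine mul_le_mul_of_nonneg_left ?_ (μ_nonneg _ _ _)
        refine w_anti c d _ fun a ha => ?_
        rw [hc] at ha
        exact hd a (mem_filter.mp ha).1 (mem_filter.mp ha).2
    _ = _ := by rw [← sum_mul, μ_total, one_mul]

end Pool.Agent.V11271.HP
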